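import Mathlib

open MeasureTheory Filter Topology Complex Polynomial
open scoped Real

namespace Pool.Agent.Lib.P58ffb3

/-- A subharmonic function `u : ℂ → [-∞, ∞)`: upper semicontinuous, never `+∞`, with the
sub-mean value inequality on every circle, written as: `u a` is at most the circle average of
every continuous real function `φ` which majorises `u` on the circle (for an upper
semicontinuous `u` this says exactly that `u a` is at most the integral mean of `u`). -/
structure IsSubharmonic (u : ℂ → EReal) : Prop where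
  usc : UpperSemicontinuous u
  ne_top : ∀ z, u z ≠ ⊤
  submean : ∀ (a : ℂ) (r : ℝ), 0 < r → ∀ φ : ℂ → ℝ, Continuous φ →
    (∀ z ∈ Metric.sphere a r, u z ≤ ((φ z : ℝ) : EReal)) →
      u a ≤ ((Real.circleAverage φ a r : ℝ) : EReal)

/-- The Siciak–Zaharjuta extremal function `V_K` of `K ⊆ ℂ` (the case `n = 1`): the supremum of
the subharmonic `u` with `u ≤ log⁺ |·| + O(1)` on `ℂ` and `u ≤ 0` on `K`. -/
noncomputable def extremal (K : Set ℂ) (z : ℂ) : EReal :=
  sSup {t : EReal | ∃ u : ℂ → EReal, IsSubharmonic u ∧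
    (∃ C : ℝ, ∀ ζ, u ζ ≤ ((Real.posLog ‖ζ‖ + C : ℝ) : EReal)) ∧
    (∀ ζ ∈ K, u ζ ≤ 0) ∧ t = u z}

/-- `μ` is the equilibrium measure `dd^c V_K` of a compact `K ⊆ ℂ` with `V_K` continuous, with
`d^c` normalised so that it is a probability measure: `∫ V_K Δφ dA = 2π ∫ φ dμ` for all real
test functions `φ`. -/
structure IsEquilibriumMeasure (K : Set ℂ) (μ : Measure ℂ) : Prop where
  prob : IsProbabilityMeasure μ
  laplacian : ∀ φ : ℂ → ℝ, ContDiff ℝ ((⊤ : ℕ∞) : WithTop ℕ∞) φ → HasCompactSupport φ →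
    ∫ z, (extremal K z).toReal * (Laplacian.laplacian φ z) = 2 * π * ∫ z, φ z ∂μ

/-- `e` is an orthonormal basis, for the inner product of `L²(ν)`, of the space of polynomials of
degree at most `k` (which has dimension `N_k = k + 1`). -/
def IsOrthonormalBasisOf (ν : Measure ℂ) (k : ℕ) (e : Fin (k + 1) → ℂ[X]) : Prop :=
  (∀ i, (e i).natDegree ≤ k) ∧
    ∀ i j, ∫ z, (e i).eval z * (starRingEnd ℂ) ((e j).eval z) ∂ν = if i = j then 1 else 0

/-- The Bergman function `|e_1|² + ⋯ + |e_{N_k}|²`. -/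
noncomputable def bergman {k : ℕ} (e : Fin (k + 1) → ℂ[X]) (z : ℂ) : ℝ :=
  ∑ i, ‖(e i).eval z‖ ^ 2

/-- Property (S): the measures `N_k⁻¹ B_k ν` converge weak-* to `μ`. -/
def PropertyS (ν μ : Measure ℂ) (e : (k : ℕ) → Fin (k + 1) → ℂ[X]) : Prop :=
  ∀ f : ℂ → ℝ, Continuous f →
    Tendsto (fun k : ℕ => ((k : ℝ) + 1)⁻¹ * ∫ z, f z * bergman (e k) z ∂ν) atTop
      (𝓝 (∫ z, f z ∂μ))

/-- Property (W): `(2k)⁻¹ log B_k → V_K` locally uniformly on `ℂ`. -/
def PropertyW (K : Set ℂ) (e : (k : ℕ) → Fin (k + 1) → ℂ[X]) : Prop :=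
  TendstoLocallyUniformly
    (fun (k : ℕ) (z : ℂ) => (2 * (k : ℝ))⁻¹ * Real.log (bergman (e k) z))
    (fun z => (extremal K z).toReal) atTop

end Pool.Agent.Lib.P58ffb3
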