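import Mathlib
import Pool.Agent.Lib.P58ffb3.Defs

open MeasureTheory Filter Topology Complex Polynomial
open scoped Real

namespace Pool.Agent.Lib.P58ffb3

/-- The `2^m`-th roots of unity `exp(2πi j / 2^m)`. -/
noncomputable def rt (m j : ℕ) : ℂ := (Complex.exp (2 * π * I / ((2 ^ m : ℕ) : ℂ))) ^ j

lemma prim (m : ℕ) : IsPrimitiveRoot (Complex.exp (2 * π * I / ((2 ^ m : ℕ) : ℂ))) (2 ^ m) :=
  Complex.isPrimitiveRoot_exp (2 ^ m) (by positivity)

lemma norm_rt (m j : ℕ) : ‖rt m j‖ = 1 := by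
  rw [rt, norm_pow]
  have : ‖Complex.exp (2 * π * I / ((2 ^ m : ℕ) : ℂ))‖ = 1 := by
    have h : (2 * π * I / ((2 ^ m : ℕ) : ℂ)) = ((2 * π / (2 ^ m : ℕ) : ℝ) : ℂ) * I := by
      push_cast; ring
    rw [h, Complex.norm_exp_ofReal_mul_I]
  rw [this, one_pow]

lemma rt_pow (m j : ℕ) : rt m j ^ (2 ^ m) = 1 := by
  rw [rt, ← pow_mul, mul_comm j, pow_mul, (prim m).pow_eq_one, one_pow]

lemma rt_pow_of_le {m s : ℕ} (h : m ≤ s) (j : ℕ) : rt m j ^ (2 ^ s) = 1 := by
  obtain ⟨t, rfl⟩ := Nat.exists_eq_add_of_le h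
  rw [pow_add, pow_mul, rt_pow, one_pow]

/-- average of `F` over the `2^m`-th roots of unity -/
noncomputable def av {E : Type*} [NormedAddCommGroup E] [NormedSpace ℝ E] (m : ℕ) (F : ℂ → E) : E :=
  ((2 : ℝ) ^ m)⁻¹ • ∑ j ∈ Finset.range (2 ^ m), F (rt m j)

/-- The tails `exp(-4^m)` of the weights. -/
noncomputable def tl (m : ℕ) : ℝ := Real.exp (-(4 : ℝ) ^ m)

/-- The weights `exp(-4^m) - exp(-4^(m+1))`. -/
noncomputable def wt (m : ℕ) : ℝ := tl m - tl (m + 1)

lemma tl_pos (m : ℕ) : 0 < tl m := Real.exp_pos _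

lemma wt_pos (m : ℕ) : 0 < wt m := by
  unfold wt tl
  rw [sub_pos, Real.exp_lt_exp, pow_succ]
  have : (0:ℝ) < 4 ^ m := by positivity
  linarith

lemma tl_tendsto : Tendsto tl atTop (𝓝 0) := by
  unfold tl
  apply Real.tendsto_exp_neg_atTop_nhds_zero.comp
  exact tendsto_pow_atTop_atTop_of_one_lt (by norm_num)

lemma hasSum_wt (s : ℕ) : HasSum (fun m => wt (s + m)) (tl s) := by
  rw [hasSum_iff_tendsto_nat_of_nonneg (fun i => (wt_pos _).le)]
  have h1 : ∀ n, ∑ i ∈ Finset.range n, wt (s + i) = tl s - tl (s + n) := by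
    intro n
    induction n with
    | zero => simp
    | succ n ih =>
      rw [Finset.sum_range_succ, ih, wt]
      ring_nf
  simp_rw [h1]
  have h2 : Tendsto (fun n => tl (s + n)) atTop (𝓝 0) :=
    tl_tendsto.comp (tendsto_add_atTop_nat s |>.congr (fun n => by rw [add_comm]))
  simpa using tendsto_const_nhds.sub h2

/-- the uniform probability measure on the `2^m`-th roots of unity -/
noncomputable def unif (m : ℕ) : Measure ℂ :=
  ENNReal.ofReal (((2 : ℝ) ^ m)⁻¹) • ∑ j ∈ Finset.range (2 ^ m), Measure.dirac (rt m j)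

/-- The measure `ν = ∑ₘ wₘ νₘ`, where `νₘ` is uniform on the `2^m`-th roots of unity. -/
noncomputable def nu : Measure ℂ := Measure.sum (fun m => ENNReal.ofReal (wt m) • unif m)

lemma unif_univ (m : ℕ) : unif m Set.univ = 1 := by
  rw [unif, Measure.smul_apply, Measure.finsetSum_apply]
  simp only [measure_univ, Finset.sum_const, Finset.card_range, nsmul_eq_mul, mul_one, smul_eq_mul]
  have h : ((2 ^ m : ℕ) : ENNReal) = ENNReal.ofReal ((2 : ℝ) ^ m) := by
    rw [ENNReal.ofReal_pow (by norm_num)]; simp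
  rw [h, ← ENNReal.ofReal_mul (by positivity), inv_mul_cancel₀ (by positivity), ENNReal.ofReal_one]

instance (m : ℕ) : IsProbabilityMeasure (unif m) := ⟨unif_univ m⟩

lemma nu_univ : nu Set.univ = ENNReal.ofReal (tl 0) := by
  rw [nu, Measure.sum_apply _ MeasurableSet.univ]
  simp only [Measure.smul_apply, unif_univ, smul_eq_mul, mul_one]
  rw [← ENNReal.ofReal_tsum_of_nonneg (fun n => (wt_pos n).le)]
  · have := (hasSum_wt 0).tsum_eq
    simp only [zero_add] at this
    rw [this]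
  · have := (hasSum_wt 0).summable
    simpa only [zero_add] using this

instance : IsFiniteMeasure nu := ⟨by rw [nu_univ]; exact ENNReal.ofReal_lt_top⟩

lemma ae_unif (m : ℕ) {P : ℂ → Prop} (hP : MeasurableSet {z | P z})
    (h : ∀ j < 2 ^ m, P (rt m j)) : ∀ᵐ z ∂(unif m), P z := by
  rw [ae_iff, unif, Measure.smul_apply, Measure.finsetSum_apply]
  have : ∑ j ∈ Finset.range (2 ^ m), (Measure.dirac (rt m j)) {z | ¬ P z} = 0 := by
    apply Finset.sum_eq_zero
    intro j hj
    have h2 : {z | ¬ P z} = {z | P z}ᶜ := by ext z; simp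
    rw [h2, Measure.dirac_apply' _ hP.compl]
    simp [h j (Finset.mem_range.1 hj)]
  rw [this, smul_zero]

lemma ae_nu {P : ℂ → Prop} (hP : MeasurableSet {z | P z})
    (h : ∀ m, ∀ j < 2 ^ m, P (rt m j)) : ∀ᵐ z ∂nu, P z := by
  rw [nu, Measure.ae_sum_iff' hP]
  intro m
  exact Measure.ae_smul_measure (ae_unif m hP (h m)) _

lemma ae_norm_eq_one : ∀ᵐ z ∂nu, ‖z‖ = 1 :=
  ae_nu (measurableSet_eq_fun (by fun_prop) (by fun_prop)) (fun m j _ => norm_rt m j)

lemma integrable_of_continuous {E : Type*} [NormedAddCommGroup E] [SecondCountableTopology E]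
    {F : ℂ → E} (hF : Continuous F) : Integrable F nu := by
  obtain ⟨C, hC⟩ := (isCompact_sphere (0:ℂ) 1).exists_bound_of_continuousOn hF.continuousOn
  apply Integrable.of_bound hF.aestronglyMeasurable C
  filter_upwards [ae_norm_eq_one] with z hz
  exact hC z (by simpa using hz)

lemma integral_unif {E : Type*} [NormedAddCommGroup E] [NormedSpace ℝ E] [CompleteSpace E]
    (m : ℕ) {F : ℂ → E} (hF : StronglyMeasurable F) : ∫ z, F z ∂(unif m) = av m F := by
  borelize E
  rw [unif, integral_smul_measure, integral_finsetSum_measure]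
  · rw [ENNReal.toReal_ofReal (by positivity), av]
    congr 1
    apply Finset.sum_congr rfl
    intro j _
    rw [integral_dirac' _ _ hF]
  · intro j _
    refine ⟨hF.aestronglyMeasurable, ?_⟩
    rw [hasFiniteIntegral_iff_enorm, lintegral_dirac' _ hF.measurable.enorm]
    simp

lemma hasSum_integral_nu {E : Type*} [NormedAddCommGroup E] [NormedSpace ℝ E] [CompleteSpace E]
    {F : ℂ → E} (hF : StronglyMeasurable F) (hF' : Integrable F nu) :
    HasSum (fun m => wt m • av m F) (∫ z, F z ∂nu) := by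
  have h := hasSum_integral_measure (μ := fun m => ENNReal.ofReal (wt m) • unif m) (f := F) hF'
  rw [← nu] at h
  convert h using 2 with m
  rw [integral_smul_measure, integral_unif m hF, ENNReal.toReal_ofReal (wt_pos m).le]

lemma integral_nu {E : Type*} [NormedAddCommGroup E] [NormedSpace ℝ E] [CompleteSpace E]
    [SecondCountableTopology E]
    {F : ℂ → E} (hF : Continuous F) :
    HasSum (fun m => wt m • av m F) (∫ z, F z ∂nu) := by
  borelize E
  exact hasSum_integral_nu hF.stronglyMeasurable (integrable_of_continuous hF)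

/-- power sums -/
lemma av_zpow (m : ℕ) (l : ℤ) :
    av m (fun z : ℂ => z ^ l) = if ((2 ^ m : ℕ) : ℤ) ∣ l then 1 else 0 := by
  set ω : ℂ := Complex.exp (2 * π * I / ((2 ^ m : ℕ) : ℂ)) with hω
  have hω0 : ω ≠ 0 := Complex.exp_ne_zero _
  have h1 : ∀ j : ℕ, (rt m j) ^ l = (ω ^ l) ^ j := by
    intro j
    rw [rt, ← hω, ← zpow_natCast, ← zpow_natCast, ← zpow_mul, ← zpow_mul, mul_comm]
  unfold av
  simp_rw [h1]
  split_ifs with h
  · have h2 : ω ^ l = 1 := ((prim m).zpow_eq_one_iff_dvd l).2 (by exact_mod_cast h)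
    rw [h2]
    simp
  · have h2 : ω ^ l ≠ 1 := fun h3 => h (by
      exact_mod_cast ((prim m).zpow_eq_one_iff_dvd l).1 h3)
    have h3 : (ω ^ l) ^ (2 ^ m) = 1 := by
      rw [← zpow_natCast, ← zpow_mul, mul_comm, zpow_mul, zpow_natCast, (prim m).pow_eq_one,
        one_zpow]
    have h4 := mul_neg_geom_sum (ω ^ l) (2 ^ m)
    rw [h3, sub_self] at h4
    have h5 : ∑ i ∈ Finset.range (2 ^ m), (ω ^ l) ^ i = 0 := by
      rcases mul_eq_zero.1 h4 with h | h
      · exact absurd (sub_eq_zero.1 h).symm h2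
      · exact h
    rw [h5, smul_zero]

end Pool.Agent.Lib.P58ffb3
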