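import Mathlib
import Pool.Agent.Lib.P58ffb3.Measure

open MeasureTheory Filter Topology Complex Polynomial
open scoped Real ComplexConjugate

namespace Pool.Agent.Lib.P58ffb3

/-! Abstract facts on orthonormal families of polynomials. -/

section Abstract

variable {ν : Measure ℂ} (hI : ∀ F : ℂ → ℂ, Continuous F → Integrable F ν)

include hI in
lemma integral_comb {ι : Type*} [Fintype ι] [DecidableEq ι] (e : ι → ℂ[X])
    (he : ∀ i j, ∫ z, (e i).eval z * conj ((e j).eval z) ∂ν = if i = j then 1 else 0)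
    (c d : ι → ℂ) :
    ∫ z, (∑ i, c i * (e i).eval z) * conj (∑ i, d i * (e i).eval z) ∂ν = ∑ i, c i * conj (d i) := by
  have h1 : ∀ z, (∑ i, c i * (e i).eval z) * conj (∑ i, d i * (e i).eval z) =
      ∑ i, ∑ j, (c i * conj (d j)) * ((e i).eval z * conj ((e j).eval z)) := by
    intro z
    rw [map_sum, Finset.sum_mul_sum]
    apply Finset.sum_congr rfl; intro i _
    apply Finset.sum_congr rfl; intro j _
    rw [map_mul]; ring
  simp_rw [h1]
  have hint : ∀ i j, Integrable (fun z => (c i * conj (d j)) * ((e i).eval z * conj ((e j).eval z))) ν :=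
    fun i j => hI _ (by fun_prop)
  rw [integral_finsetSum _ (fun i _ => integrable_finsetSum _ (fun j _ => hint i j))]
  apply Finset.sum_congr rfl; intro i _
  rw [integral_finsetSum _ (fun j _ => hint i j)]
  rw [Finset.sum_eq_single i]
  · rw [integral_const_mul, he]; simp
  · intro j _ hj
    rw [integral_const_mul, he]; simp [Ne.symm hj]
  · simp

include hI in
lemma integral_normSq_comb {ι : Type*} [Fintype ι] [DecidableEq ι] (e : ι → ℂ[X])
    (he : ∀ i j, ∫ z, (e i).eval z * conj ((e j).eval z) ∂ν = if i = j then 1 else 0)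
    (c : ι → ℂ) :
    ∫ z, ‖∑ i, c i * (e i).eval z‖ ^ 2 ∂ν = ∑ i, ‖c i‖ ^ 2 := by
  have h := integral_comb hI e he c c
  have h1 : ∀ w : ℂ, w * conj w = ((‖w‖ ^ 2 : ℝ) : ℂ) := fun w => by
    rw [Complex.mul_conj, Complex.normSq_eq_norm_sq]
  simp_rw [h1] at h
  rw [integral_complex_ofReal] at h
  exact_mod_cast h

include hI in
lemma integral_sum_normSq {ι : Type*} [Fintype ι] [DecidableEq ι] (e : ι → ℂ[X])
    (he : ∀ i j, ∫ z, (e i).eval z * conj ((e j).eval z) ∂ν = if i = j then 1 else 0) :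
    ∫ z, ∑ i, ‖(e i).eval z‖ ^ 2 ∂ν = Fintype.card ι := by
  have hI' : ∀ F : ℂ → ℝ, Continuous F → Integrable F ν := by
    intro F hF
    have := hI (fun z => (F z : ℂ)) (by fun_prop)
    simpa using this.re
  rw [integral_finsetSum _ (fun i _ => hI' _ (by fun_prop))]
  have h2 : ∀ i, ∫ z, ‖(e i).eval z‖ ^ 2 ∂ν = 1 := by
    intro i
    have h3 := integral_normSq_comb hI e he (fun j => if j = i then 1 else 0)
    have h4 : ∀ z, ∑ j, (if j = i then (1:ℂ) else 0) * (e j).eval z = (e i).eval z := by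
      intro z; simp
    simp_rw [h4] at h3
    rw [h3]
    rw [Finset.sum_eq_single i] <;> simp +contextual
  simp [h2]

/-- The polynomial reproducing at `x`. -/
lemma repro_bound {ι : Type*} [Fintype ι] (e : ι → ℂ[X]) (c : ι → ℂ) (x : ℂ) :
    ‖∑ i, c i * (e i).eval x‖ ^ 2 ≤ (∑ i, ‖c i‖ ^ 2) * ∑ i, ‖(e i).eval x‖ ^ 2 := by
  have h1 : ‖∑ i, c i * (e i).eval x‖ ≤ ∑ i, ‖c i‖ * ‖(e i).eval x‖ := by
    refine (norm_sum_le _ _).trans (le_of_eq ?_)
    apply Finset.sum_congr rfl; intro i _; rw [norm_mul]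
  calc ‖∑ i, c i * (e i).eval x‖ ^ 2 ≤ (∑ i, ‖c i‖ * ‖(e i).eval x‖) ^ 2 := by gcongr
    _ ≤ _ := Finset.sum_mul_sq_le_sq_mul_sq _ _ _

include hI in
/-- An orthonormal family of `k+1` polynomials of degree at most `k` spans. -/
lemma exists_coeffs {k : ℕ} {e : Fin (k + 1) → ℂ[X]} (he0 : ∀ i, (e i).natDegree ≤ k)
    (he : ∀ i j, ∫ z, (e i).eval z * conj ((e j).eval z) ∂ν = if i = j then 1 else 0)
    (q : ℂ[X]) (hq : q.natDegree ≤ k) : ∃ c : Fin (k + 1) → ℂ, q = ∑ i, C (c i) * e i := by
  -- the coefficient map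
  let L : (Fin (k + 1) → ℂ) →ₗ[ℂ] (Fin (k + 1) → ℂ) :=
    { toFun := fun c i => (∑ j, C (c j) * e j).coeff i
      map_add' := by
        intro c d; funext i
        simp only [Pi.add_apply, finsetSum_coeff, coeff_C_mul, add_mul, Finset.sum_add_distrib]
      map_smul' := by
        intro a c; funext i
        simp only [Pi.smul_apply, smul_eq_mul, finsetSum_coeff, coeff_C_mul, RingHom.id_apply,
          Finset.mul_sum, mul_assoc] }
  have hdeg : ∀ c : Fin (k + 1) → ℂ, (∑ j, C (c j) * e j).natDegree ≤ k := by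
    intro c
    apply natDegree_sum_le_of_forall_le
    intro j _
    exact (natDegree_C_mul_le _ _).trans (he0 j)
  have hext : ∀ p p' : ℂ[X], p.natDegree ≤ k → p'.natDegree ≤ k →
      (∀ i : Fin (k + 1), p.coeff i = p'.coeff i) → p = p' := by
    intro p p' hp hp' h
    ext n
    by_cases hn : n < k + 1
    · exact h ⟨n, hn⟩
    · rw [coeff_eq_zero_of_natDegree_lt (by omega), coeff_eq_zero_of_natDegree_lt (by omega)]
  have hinj : Function.Injective L := by
    rw [← LinearMap.ker_eq_bot, LinearMap.ker_eq_bot']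
    intro c hc
    have h1 : ∑ j, C (c j) * e j = 0 := by
      apply hext _ _ (hdeg c) (by simp)
      intro i
      have := congrFun hc i
      simpa [L] using this
    funext i
    have h2 := integral_comb hI e he c (fun j => if j = i then 1 else 0)
    have h3 : ∀ z, ∑ j, c j * (e j).eval z = 0 := by
      intro z
      have := congrArg (fun p => Polynomial.eval z p) h1
      simpa [eval_finsetSum] using this
    simp_rw [h3] at h2
    simp only [zero_mul, integral_zero] at h2
    rw [Finset.sum_eq_single i] at h2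
    · simpa using h2.symm
    · intro b _ hb; simp [hb]
    · simp
  have hsurj : Function.Surjective L := LinearMap.injective_iff_surjective.1 hinj
  obtain ⟨c, hc⟩ := hsurj (fun i => q.coeff i)
  refine ⟨c, hext _ _ hq (hdeg c) ?_⟩
  intro i
  have := congrFun hc i
  simpa [L] using this.symm

include hI in
lemma sq_le_bergman {k : ℕ} {e : Fin (k + 1) → ℂ[X]} (he : IsOrthonormalBasisOf ν k e)
    (q : ℂ[X]) (hq : q.natDegree ≤ k) (x : ℂ) :
    ‖q.eval x‖ ^ 2 ≤ (∫ z, ‖q.eval z‖ ^ 2 ∂ν) * bergman e x := by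
  obtain ⟨c, hc⟩ := exists_coeffs hI he.1 he.2 q hq
  have h1 : ∀ z, q.eval z = ∑ i, c i * (e i).eval z := by
    intro z; rw [hc]; simp [eval_finsetSum]
  simp_rw [h1]
  rw [integral_normSq_comb hI e he.2 c]
  exact repro_bound e c x

lemma bergman_nonneg {k : ℕ} (e : Fin (k + 1) → ℂ[X]) (x : ℂ) : 0 ≤ bergman e x := by
  unfold bergman; positivity

lemma continuous_bergman {k : ℕ} (e : Fin (k + 1) → ℂ[X]) : Continuous (bergman e) := by
  unfold bergman; fun_prop

include hI in
lemma integral_bergman {k : ℕ} {e : Fin (k + 1) → ℂ[X]} (he : IsOrthonormalBasisOf ν k e) :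
    ∫ z, bergman e z ∂ν = k + 1 := by
  have := integral_sum_normSq hI e he.2
  simpa [bergman] using this

include hI in
/-- A subfamily bound: the Bergman function dominates that of any orthonormal family. -/
lemma sum_le_bergman {k : ℕ} {e : Fin (k + 1) → ℂ[X]} (he : IsOrthonormalBasisOf ν k e)
    {ι : Type*} [Fintype ι] [DecidableEq ι] (g : ι → ℂ[X]) (hg0 : ∀ i, (g i).natDegree ≤ k)
    (hg : ∀ i j, ∫ z, (g i).eval z * conj ((g j).eval z) ∂ν = if i = j then 1 else 0) (x : ℂ) :
    ∑ i, ‖(g i).eval x‖ ^ 2 ≤ bergman e x := by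
  set c : ι → ℂ := fun i => conj ((g i).eval x) with hc
  set q : ℂ[X] := ∑ i, C (c i) * g i with hq
  have hqd : q.natDegree ≤ k := by
    apply natDegree_sum_le_of_forall_le
    intro j _
    exact (natDegree_C_mul_le _ _).trans (hg0 j)
  have h1 : ∀ z, q.eval z = ∑ i, c i * (g i).eval z := by
    intro z; simp [hq, eval_finsetSum]
  have h2 := sq_le_bergman hI he q hqd x
  have h3 : ∫ z, ‖q.eval z‖ ^ 2 ∂ν = ∑ i, ‖(g i).eval x‖ ^ 2 := by
    simp_rw [h1]
    rw [integral_normSq_comb hI g hg c]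
    simp [hc]
  have h4 : q.eval x = ((∑ i, ‖(g i).eval x‖ ^ 2 : ℝ) : ℂ) := by
    rw [h1]
    push_cast
    apply Finset.sum_congr rfl
    intro i _
    simp only [hc]
    rw [mul_comm, Complex.mul_conj, Complex.normSq_eq_norm_sq]
    push_cast; ring
  rw [h3, h4, Complex.norm_real, Real.norm_eq_abs] at h2
  set S := ∑ i, ‖(g i).eval x‖ ^ 2 with hS
  have hS0 : 0 ≤ S := by positivity
  rcases eq_or_lt_of_le hS0 with h | h
  · rw [← h]; exact bergman_nonneg e x
  · rw [abs_of_pos h, sq] at h2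
    exact le_of_mul_le_mul_left h2 h

include hI in
lemma bergman_mul_atom_le_one [IsFiniteMeasure ν] {k : ℕ} {e : Fin (k + 1) → ℂ[X]}
    (he : IsOrthonormalBasisOf ν k e) (x : ℂ) : bergman e x * (ν {x}).toReal ≤ 1 := by
  set c : Fin (k + 1) → ℂ := fun i => conj ((e i).eval x) with hc
  have h0 := integral_normSq_comb hI e he.2 c
  have h1 : ∑ i, ‖c i‖ ^ 2 = bergman e x := by simp [hc, bergman]
  rw [h1] at h0
  have h2 : ∑ i, c i * (e i).eval x = ((bergman e x : ℝ) : ℂ) := by
    unfold bergman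
    push_cast
    apply Finset.sum_congr rfl
    intro i _
    simp only [hc]
    rw [mul_comm, Complex.mul_conj, Complex.normSq_eq_norm_sq]
    push_cast; ring
  have hI' : ∀ F : ℂ → ℝ, Continuous F → Integrable F ν := by
    intro F hF
    have := hI (fun z => (F z : ℂ)) (by fun_prop)
    simpa using this.re
  have h3 : ∫ z in {x}, ‖∑ i, c i * (e i).eval z‖ ^ 2 ∂ν ≤
      ∫ z, ‖∑ i, c i * (e i).eval z‖ ^ 2 ∂ν := by
    apply setIntegral_le_integral
    · exact hI' _ (by fun_prop)
    · exact Eventually.of_forall (fun z => by positivity)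
  rw [integral_singleton, h2, h0, smul_eq_mul, Complex.norm_real, Real.norm_eq_abs,
    abs_of_nonneg (bergman_nonneg e x)] at h3
  rcases eq_or_lt_of_le (bergman_nonneg e x) with h | h
  · rw [← h]; simp
  · have h4 : (ν {x}).toReal * bergman e x * bergman e x ≤ 1 * bergman e x := by
      rw [one_mul]; simpa [sq, mul_assoc, Measure.real] using h3
    have := le_of_mul_le_mul_right h4 h
    rw [mul_comm]; exact this

end Abstract

end Pool.Agent.Lib.P58ffb3
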