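import Mathlib
import Pool.Agent.Lib.P58ffb3.Defs

open MeasureTheory Filter Topology Complex Polynomial
open scoped Real

namespace Pool.Agent.Lib.P58ffb3

lemma circleAverage_posLog_ge (a : ℂ) {r : ℝ} (hr : 0 < r) :
    Real.posLog ‖a‖ ≤ Real.circleAverage (fun z : ℂ => Real.posLog ‖z‖) a r := by
  have hcont : Continuous (fun z : ℂ => Real.posLog ‖z‖) :=
    Real.continuous_posLog.comp continuous_norm
  have hint : CircleIntegrable (fun z : ℂ => Real.posLog ‖z‖) a r :=
    hcont.continuousOn.circleIntegrable hr.le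
  have h0 : 0 ≤ Real.circleAverage (fun z : ℂ => Real.posLog ‖z‖) a r := by
    have := Real.circleAverage_mono (c := a) (R := r) (f₁ := fun _ => (0:ℝ))
      (f₂ := fun z : ℂ => Real.posLog ‖z‖) (continuousOn_const.circleIntegrable hr.le) hint
      (fun x _ => Real.posLog_nonneg)
    simpa [Real.circleAverage_const] using this
  rcases le_or_gt ‖a‖ 1 with h1 | h1
  · have : Real.posLog ‖a‖ = 0 := by
      rw [Real.posLog_eq_zero_iff]; rwa [abs_of_nonneg (norm_nonneg a)]
    rw [this]; exact h0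
  · have h2 := circleAverage_log_norm_sub_const_eq_log_radius_add_posLog (a := (0:ℂ)) (c := a)
      (R := r) hr.ne'
    simp only [sub_zero] at h2
    have h3 : Real.circleAverage (fun x : ℂ => Real.log ‖x‖) a r ≤
        Real.circleAverage (fun z : ℂ => Real.posLog ‖z‖) a r := by
      apply Real.circleAverage_mono _ hint
      · intro x _
        exact le_max_right _ _
      · have := circleIntegrable_log_norm_sub_const (a := (0:ℂ)) (c := a) r
        simpa using this
    rw [h2] at h3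
    refine le_trans ?_ h3
    have h4 : Real.posLog ‖a‖ = Real.log ‖a‖ :=
      Real.posLog_eq_log (by rw [abs_of_nonneg (norm_nonneg a)]; exact h1.le)
    rw [h4]
    have h5 : Real.log (r⁻¹ * ‖a‖) ≤ Real.posLog (r⁻¹ * ‖a‖) := le_max_right _ _
    rw [Real.log_mul (inv_ne_zero hr.ne') (by positivity), Real.log_inv] at h5
    linarith

lemma isSubharmonic_posLog : IsSubharmonic (fun z => ((Real.posLog ‖z‖ : ℝ) : EReal)) where
  usc := by
    apply Continuous.upperSemicontinuous
    exact continuous_coe_real_ereal.comp (Real.continuous_posLog.comp continuous_norm)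
  ne_top := fun z => EReal.coe_ne_top _
  submean := by
    intro a r hr φ hφ h
    have hcont : Continuous (fun z : ℂ => Real.posLog ‖z‖) :=
      Real.continuous_posLog.comp continuous_norm
    rw [EReal.coe_le_coe_iff]
    refine (circleAverage_posLog_ge a hr).trans ?_
    apply Real.circleAverage_mono (hcont.continuousOn.circleIntegrable hr.le)
      (hφ.continuousOn.circleIntegrable hr.le)
    intro x hx
    rw [abs_of_pos hr] at hx
    exact EReal.coe_le_coe_iff.1 (h x hx)

/-- Circle average of a nonnegative continuous function positive somewhere on the circle. -/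
lemma circleAverage_pos {b : ℂ → ℝ} (hb : Continuous b) (hb0 : ∀ z, 0 ≤ b z) {a : ℂ} {r : ℝ}
    (hr : 0 < r) {p : ℂ} (hp : p ∈ Metric.sphere a r) (hbp : 0 < b p) :
    0 < Real.circleAverage b a r := by
  have h1 : p ∈ circleMap a r '' Set.Ioc 0 (2 * π) := by
    rw [image_circleMap_Ioc, abs_of_pos hr]; exact hp
  obtain ⟨θ, hθ, hθp⟩ := h1
  rw [Real.circleAverage_def, smul_eq_mul]
  apply mul_pos (by positivity)
  have hc : Continuous (fun θ : ℝ => b (circleMap a r θ)) := hb.comp (continuous_circleMap a r)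
  apply intervalIntegral.integral_pos Real.two_pi_pos hc.continuousOn (fun x _ => hb0 _)
  exact ⟨θ, ⟨hθ.1.le, hθ.2⟩, by rw [hθp]; exact hbp⟩

lemma circleAverage_posLog_eq {a : ℂ} {r : ℝ} (hr : 0 < r) (ha : 1 + r ≤ ‖a‖) :
    Real.circleAverage (fun z : ℂ => Real.posLog ‖z‖) a r = Real.log ‖a‖ := by
  have h1 : Real.circleAverage (fun z : ℂ => Real.posLog ‖z‖) a r =
      Real.circleAverage (fun z : ℂ => Real.log ‖z‖) a r := by
    apply Real.circleAverage_congr_sphere
    intro z hz
    rw [abs_of_pos hr] at hz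
    have hz1 : 1 ≤ ‖z‖ := by
      have h2 : ‖a‖ ≤ ‖z‖ + r := by
        have h3 : ‖a‖ ≤ ‖z‖ + ‖a - z‖ := by
          simpa using norm_add_le z (a - z)
        have h4 : ‖a - z‖ = r := by
          rw [← dist_eq_norm, dist_comm]; exact hz
        rw [h4] at h3; exact h3
      linarith
    exact Real.posLog_eq_log (by rw [abs_of_nonneg (norm_nonneg z)]; exact hz1)
  rw [h1]
  have h2 := circleAverage_log_norm_sub_const_eq_log_radius_add_posLog (a := (0:ℂ)) (c := a)
      (R := r) hr.ne'
  simp only [sub_zero] at h2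
  rw [h2]
  have h3 : 1 ≤ r⁻¹ * ‖a‖ := by
    rw [inv_mul_eq_div, one_le_div hr]; linarith
  have ha0 : ‖a‖ ≠ 0 := by linarith
  rw [Real.posLog_eq_log (by rw [abs_of_nonneg (by positivity)]; exact h3),
    Real.log_mul (inv_ne_zero hr.ne') ha0, Real.log_inv]
  ring

lemma le_posLog_of_mem_class {u : ℂ → EReal} (hu : IsSubharmonic u) {C : ℝ}
    (hC : ∀ ζ, u ζ ≤ ((Real.posLog ‖ζ‖ + C : ℝ) : EReal))
    (hK : ∀ ζ ∈ Metric.closedBall (0:ℂ) 1, u ζ ≤ 0) (z₀ : ℂ) :
    u z₀ ≤ ((Real.posLog ‖z₀‖ : ℝ) : EReal) := by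
  by_contra hcon
  push Not at hcon
  have hz₀ : 1 < ‖z₀‖ := by
    by_contra h
    push Not at h
    have h1 := hK z₀ (by simpa using h)
    have h2 : (0 : EReal) ≤ ((Real.posLog ‖z₀‖ : ℝ) : EReal) := by
      exact_mod_cast Real.posLog_nonneg
    exact absurd (hcon.trans_le h1) (not_lt.2 h2)
  have hlog0 : 0 < Real.log ‖z₀‖ := Real.log_pos hz₀
  have hpl : ∀ z : ℂ, 1 ≤ ‖z‖ → Real.posLog ‖z‖ = Real.log ‖z‖ := fun z hz =>
    Real.posLog_eq_log (by rw [abs_of_nonneg (norm_nonneg z)]; exact hz)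
  rw [hpl z₀ hz₀.le] at hcon
  obtain ⟨t, ht1, ht2⟩ := EReal.lt_iff_exists_real_btwn.1 hcon
  rw [EReal.coe_lt_coe_iff] at ht1
  set L := Real.log ‖z₀‖ with hL
  set ε : ℝ := (t - L) / (2 * L) with hε
  have hεpos : 0 < ε := by
    rw [hε]; apply div_pos (by linarith) (by linarith)
  have hεL : (1 + ε) * L < t := by
    have : ε * L = (t - L) / 2 := by rw [hε]; field_simp
    nlinarith
  -- the comparison function
  set g : ℂ → ℝ := fun z => (1 + ε) * Real.posLog ‖z‖ with hg
  have hgc : Continuous g :=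
    continuous_const.mul (Real.continuous_posLog.comp continuous_norm)
  set w : ℂ → EReal := fun z => u z + ((-(g z) : ℝ) : EReal) with hw
  have hwusc : UpperSemicontinuous w := by
    apply UpperSemicontinuous.add' hu.usc
    · apply Continuous.upperSemicontinuous
      exact continuous_coe_real_ereal.comp hgc.neg
    · intro x
      apply EReal.continuousAt_add
      · right; exact EReal.coe_ne_bot _
      · right; exact EReal.coe_ne_top _
  -- the outer radius
  obtain ⟨R, hR1, hR2⟩ : ∃ R : ℝ, ‖z₀‖ < R ∧ C < ε * Real.log R := by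
    have h1 : Tendsto (fun R : ℝ => ε * Real.log R) atTop atTop :=
      Real.tendsto_log_atTop.const_mul_atTop hεpos
    obtain ⟨R, h⟩ := ((eventually_gt_atTop ‖z₀‖).and (h1.eventually_gt_atTop C)).exists
    exact ⟨R, h.1, h.2⟩
  set A : Set ℂ := Metric.closedBall 0 R ∩ {z | 1 ≤ ‖z‖} with hA
  have hAc : IsCompact A :=
    (isCompact_closedBall 0 R).inter_right (isClosed_le continuous_const continuous_norm)
  have hz₀A : z₀ ∈ A := ⟨by simpa using hR1.le, hz₀.le⟩
  obtain ⟨zm, hzmA, hzm⟩ := (hwusc.upperSemicontinuousOn A).exists_isMaxOn ⟨z₀, hz₀A⟩ hAc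
  set M := w zm with hM
  have hMpos : (0 : EReal) < M := by
    have h1 : w z₀ ≤ M := hzm hz₀A
    refine lt_of_lt_of_le ?_ h1
    have h2 : ((t : ℝ) : EReal) + ((-(g z₀) : ℝ) : EReal) < w z₀ ∨
        ((t : ℝ) : EReal) + ((-(g z₀) : ℝ) : EReal) ≤ w z₀ := by
      right
      exact add_le_add_left ht2.le _
    rcases h2 with h2 | h2
    · refine lt_trans ?_ h2
      rw [← EReal.coe_add]
      exact_mod_cast (by simp only [hg]; rw [hpl z₀ hz₀.le]; linarith)
    · refine lt_of_lt_of_le ?_ h2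
      rw [← EReal.coe_add]
      exact_mod_cast (by simp only [hg]; rw [hpl z₀ hz₀.le]; linarith)
  have hMtop : M ≠ ⊤ := by
    rw [hM, hw]
    simp only
    exact EReal.add_ne_top (hu.ne_top _) (EReal.coe_ne_top _)
  have hMbot : M ≠ ⊥ := fun h => by rw [h] at hMpos; exact absurd hMpos (by simp)
  lift M to ℝ using ⟨hMtop, hMbot⟩ with m hm
  have hmpos : 0 < m := by exact_mod_cast hMpos
  -- the set of maximum points
  set T : Set ℂ := A ∩ {z | ((m : ℝ) : EReal) ≤ w z} with hT
  have hTc : IsCompact T := by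
    apply hAc.inter_right
    exact upperSemicontinuous_iff_isClosed_preimage.1 hwusc _
  have hTne : T.Nonempty := ⟨zm, hzmA, le_of_eq hM⟩
  obtain ⟨z₁, hz₁T, hz₁⟩ := hTc.exists_isMaxOn hTne continuous_norm.continuousOn
  have hwA : ∀ z ∈ A, w z ≤ ((m : ℝ) : EReal) := fun z hz => by
    have h1 := hzm hz
    simp only [Set.mem_ofPred_eq] at h1
    rw [hM]; exact h1
  have hw_le : ∀ z (y : ℝ), w z ≤ ((y : ℝ) : EReal) → u z ≤ ((y + g z : ℝ) : EReal) := by
    intro z y h
    have h1 : w z + ((g z : ℝ) : EReal) ≤ ((y : ℝ) : EReal) + ((g z : ℝ) : EReal) :=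
      add_le_add_left h _
    have h2 : w z + ((g z : ℝ) : EReal) = u z := by
      rw [hw]
      simp only
      rw [add_assoc, ← EReal.coe_add]
      simp
    rw [h2] at h1
    rwa [EReal.coe_add]
  have hw_ge : ∀ z (y : ℝ), ((y : ℝ) : EReal) ≤ w z → ((y + g z : ℝ) : EReal) ≤ u z := by
    intro z y h
    have h1 : ((y : ℝ) : EReal) + ((g z : ℝ) : EReal) ≤ w z + ((g z : ℝ) : EReal) :=
      add_le_add_left h _
    have h2 : w z + ((g z : ℝ) : EReal) = u z := by
      rw [hw]
      simp only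
      rw [add_assoc, ← EReal.coe_add]
      simp
    rw [h2] at h1
    rwa [EReal.coe_add]
  have hz₁u := hw_ge z₁ m hz₁T.2
  have hz₁1 : 1 < ‖z₁‖ := by
    have h0 : (1:ℝ) ≤ ‖z₁‖ := hz₁T.1.2
    rcases lt_or_eq_of_le h0 with h | h
    · exact h
    · exfalso
      have h1 := hK z₁ (by simp [← h])
      have h2 : g z₁ = 0 := by
        simp only [hg]; rw [hpl z₁ hz₁T.1.2, ← h]; simp
      rw [h2, add_zero] at hz₁u
      have h3 : ((m : ℝ) : EReal) ≤ 0 := hz₁u.trans h1
      have h4 : m ≤ 0 := by exact_mod_cast h3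
      linarith
  have hz₁R : ‖z₁‖ < R := by
    have h0 : ‖z₁‖ ≤ R := by simpa using hz₁T.1.1
    rcases lt_or_eq_of_le h0 with h | h
    · exact h
    · exfalso
      have h1 := hz₁u.trans (hC z₁)
      rw [EReal.coe_le_coe_iff] at h1
      simp only [hg] at h1
      rw [hpl z₁ hz₁1.le, h] at h1
      nlinarith
  set r : ℝ := min (‖z₁‖ - 1) (R - ‖z₁‖) with hr
  have hrpos : 0 < r := lt_min (by linarith) (by linarith)
  have hr1 : 1 + r ≤ ‖z₁‖ := by
    have := min_le_left (‖z₁‖ - 1) (R - ‖z₁‖); rw [← hr] at this; linarith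
  have hr2 : ‖z₁‖ + r ≤ R := by
    have := min_le_right (‖z₁‖ - 1) (R - ‖z₁‖); rw [← hr] at this; linarith
  have hsph : ∀ z ∈ Metric.sphere z₁ r, z ∈ A := by
    intro z hz
    have h1 : ‖z - z₁‖ = r := by rw [← dist_eq_norm]; exact hz
    constructor
    · have : ‖z‖ ≤ ‖z₁‖ + ‖z - z₁‖ := by simpa using norm_add_le z₁ (z - z₁)
      simp only [Metric.mem_closedBall, dist_zero_right]; linarith
    · have : ‖z₁‖ ≤ ‖z‖ + ‖z₁ - z‖ := by simpa using norm_add_le z (z₁ - z)
      rw [norm_sub_rev] at this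
      simp only [Set.mem_ofPred_eq]; linarith
  -- the point with larger modulus
  set z₂ : ℂ := z₁ + (r / ‖z₁‖ : ℝ) * z₁ with hz₂
  have hz₁0 : ‖z₁‖ ≠ 0 := by positivity
  have hz₂s : z₂ ∈ Metric.sphere z₁ r := by
    rw [mem_sphere_iff_norm, hz₂]
    simp only [add_sub_cancel_left, norm_mul, Complex.norm_real, Real.norm_eq_abs]
    rw [abs_of_pos (by positivity)]; field_simp
  have hz₂n : ‖z₁‖ < ‖z₂‖ := by
    have : z₂ = ((1 + r / ‖z₁‖ : ℝ) : ℂ) * z₁ := by rw [hz₂]; push_cast; ring
    rw [this, norm_mul, Complex.norm_real, Real.norm_eq_abs, abs_of_pos (by positivity)]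
    have : 0 < r / ‖z₁‖ := by positivity
    nlinarith [norm_nonneg z₁, (by positivity : 0 < ‖z₁‖)]
  have hz₂w : w z₂ < ((m : ℝ) : EReal) := by
    by_contra h
    push Not at h
    have : z₂ ∈ T := ⟨hsph z₂ hz₂s, h⟩
    have h3 := hz₁ this
    simp only [Set.mem_ofPred_eq] at h3
    linarith
  obtain ⟨y, hy1, hy2⟩ := EReal.lt_iff_exists_real_btwn.1 hz₂w
  rw [EReal.coe_lt_coe_iff] at hy2
  have hnear := hwusc z₂ ((y : ℝ) : EReal) hy1
  obtain ⟨ρ, hρ, hball⟩ := Metric.eventually_nhds_iff.1 hnear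
  set b : ℂ → ℝ := fun z => max 0 (1 - ‖z - z₂‖ / ρ) with hb
  have hbc : Continuous b := by
    rw [hb]; fun_prop
  have hb0 : ∀ z, 0 ≤ b z := fun z => le_max_left _ _
  have hb1 : ∀ z, b z ≤ 1 := fun z => by
    simp only [hb]
    apply max_le (by norm_num)
    have : 0 ≤ ‖z - z₂‖ / ρ := by positivity
    linarith
  set φ : ℂ → ℝ := fun z => m + g z - (m - y) * b z with hφ
  have hφc : Continuous φ := by
    rw [hφ]
    exact (continuous_const.add hgc).sub (continuous_const.mul hbc)
  have hmaj : ∀ z ∈ Metric.sphere z₁ r, u z ≤ ((φ z : ℝ) : EReal) := by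
    intro z hz
    by_cases hd : ‖z - z₂‖ < ρ
    · have h1 : w z < ((y : ℝ) : EReal) := hball (by rw [dist_eq_norm]; exact hd)
      refine (hw_le z y h1.le).trans ?_
      rw [EReal.coe_le_coe_iff]
      simp only [hφ]
      have := hb1 z
      nlinarith
    · push Not at hd
      have h2 : b z = 0 := by
        simp only [hb]
        apply max_eq_left
        have : 1 ≤ ‖z - z₂‖ / ρ := by rwa [le_div_iff₀ hρ, one_mul]
        linarith
      refine (hw_le z m (hwA z (hsph z hz))).trans ?_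
      rw [EReal.coe_le_coe_iff]
      simp only [hφ, h2]
      linarith
  have hfin := hz₁u.trans (hu.submean z₁ r hrpos φ hφc hmaj)
  rw [EReal.coe_le_coe_iff] at hfin
  have hci : ∀ f : ℂ → ℝ, Continuous f → CircleIntegrable f z₁ r := fun f hf =>
    hf.continuousOn.circleIntegrable hrpos.le
  have hplc : Continuous (fun z : ℂ => Real.posLog ‖z‖) :=
    Real.continuous_posLog.comp continuous_norm
  have havg : Real.circleAverage φ z₁ r = m + (1 + ε) * Real.log ‖z₁‖ -
      (m - y) * Real.circleAverage b z₁ r := by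
    have e1 : φ = fun z => (m + g z) - (m - y) * b z := rfl
    rw [e1, Real.circleAverage_fun_sub (f₁ := fun z => m + g z) (f₂ := fun z => (m - y) * b z)
      (hci _ (continuous_const.add hgc))
      (hci _ (continuous_const.mul hbc)), Real.circleAverage_fun_add (f₁ := fun _ => m) (f₂ := g)
      (hci _ continuous_const) (hci _ hgc), Real.circleAverage_const]
    have e2 : Real.circleAverage g z₁ r = (1 + ε) * Real.log ‖z₁‖ := by
      have := Real.circleAverage_fun_smul (a := (1 + ε)) (f := fun z : ℂ => Real.posLog ‖z‖)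
        (c := z₁) (R := r)
      simp only [smul_eq_mul] at this
      rw [hg, this, circleAverage_posLog_eq hrpos hr1]
    have e3 : Real.circleAverage (fun z => (m - y) * b z) z₁ r =
        (m - y) * Real.circleAverage b z₁ r := by
      have := Real.circleAverage_fun_smul (a := (m - y)) (f := b) (c := z₁) (R := r)
      simpa only [smul_eq_mul] using this
    rw [e2, e3]
  have hbpos : 0 < Real.circleAverage b z₁ r := by
    apply circleAverage_pos hbc hb0 hrpos hz₂s
    simp [hb]
  rw [havg] at hfin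
  simp only [hg] at hfin
  rw [hpl z₁ hz₁1.le] at hfin
  have : 0 < (m - y) * Real.circleAverage b z₁ r := mul_pos (by linarith) hbpos
  linarith

theorem extremal_closedBall (z : ℂ) :
    extremal (Metric.closedBall (0:ℂ) 1) z = ((Real.posLog ‖z‖ : ℝ) : EReal) := by
  apply le_antisymm
  · apply sSup_le
    rintro t ⟨u, hu, ⟨C, hC⟩, hK, rfl⟩
    exact le_posLog_of_mem_class hu hC hK z
  · apply le_sSup
    refine ⟨fun z => ((Real.posLog ‖z‖ : ℝ) : EReal), isSubharmonic_posLog, ⟨0, ?_⟩, ?_, rfl⟩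
    · intro ζ; simp
    · intro ζ hζ
      have : Real.posLog ‖ζ‖ = 0 := by
        rw [Real.posLog_eq_zero_iff, abs_of_nonneg (norm_nonneg ζ)]
        simpa using hζ
      simp [this]

end Pool.Agent.Lib.P58ffb3
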