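import Mathlib
import Pool.Agent.Lib.P58ffb3.Bergman

open MeasureTheory Filter Topology Complex Polynomial
open scoped Real ComplexConjugate

namespace Pool.Agent.Lib.P58ffb3

lemma av_congr {E : Type*} [NormedAddCommGroup E] [NormedSpace ℝ E] {m : ℕ} {F G : ℂ → E}
    (h : ∀ j < 2 ^ m, F (rt m j) = G (rt m j)) : av m F = av m G := by
  unfold av
  congr 1
  exact Finset.sum_congr rfl (fun j hj => h j (Finset.mem_range.1 hj))

lemma av_ofReal (m : ℕ) (F : ℂ → ℝ) : av m (fun z => ((F z : ℝ) : ℂ)) = ((av m F : ℝ) : ℂ) := by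
  unfold av
  simp

lemma av_const_mul (m : ℕ) (c : ℂ) (F : ℂ → ℂ) : av m (fun z => c * F z) = c * av m F := by
  unfold av
  rw [← Finset.mul_sum]
  simp only [Complex.real_smul]; ring

lemma av_add (m : ℕ) (F G : ℂ → ℂ) : av m (fun z => F z + G z) = av m F + av m G := by
  unfold av
  rw [Finset.sum_add_distrib, smul_add]

lemma av_sub (m : ℕ) (F G : ℂ → ℂ) : av m (fun z => F z - G z) = av m F - av m G := by
  unfold av
  rw [Finset.sum_sub_distrib, smul_sub]

lemma av_sum {ι : Type*} (m : ℕ) (t : Finset ι) (F : ι → ℂ → ℂ) :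
    av m (fun z => ∑ i ∈ t, F i z) = ∑ i ∈ t, av m (F i) := by
  unfold av
  rw [Finset.sum_comm, Finset.smul_sum]

/-- Integrals of functions whose averages vanish at low levels and are constant at high ones. -/
lemma integral_tail {E : Type*} [NormedAddCommGroup E] [NormedSpace ℝ E] [CompleteSpace E]
    [SecondCountableTopology E] {F : ℂ → E} (hF : Continuous F) (s : ℕ) (v : E)
    (h0 : ∀ m ≤ s, av m F = 0) (h1 : ∀ m, s < m → av m F = v) :
    ∫ z, F z ∂nu = tl (s + 1) • v := by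
  have h := integral_nu hF
  have h2 : HasSum (fun m => wt m • av m F) (tl (s + 1) • v) := by
    rw [← hasSum_nat_add_iff' (s + 1)]
    have h3 : ∑ i ∈ Finset.range (s + 1), wt i • av i F = 0 := by
      apply Finset.sum_eq_zero
      intro i hi
      rw [h0 i (by have := Finset.mem_range.1 hi; omega), smul_zero]
    rw [h3, sub_zero]
    have h4 := (hasSum_wt (s + 1)).smul_const v
    convert h4 using 2 with m
    rw [h1 (m + (s + 1)) (by omega), add_comm m (s + 1)]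
  exact h.unique h2

lemma conj_of_norm_one {z : ℂ} (hz : ‖z‖ = 1) : conj z = z⁻¹ := by
  rw [Complex.inv_def, Complex.normSq_eq_norm_sq, hz]; simp

lemma av_monomial (m a b : ℕ) :
    av m (fun z : ℂ => z ^ a * conj z ^ b) =
      if ((2 ^ m : ℕ) : ℤ) ∣ ((a : ℤ) - b) then 1 else 0 := by
  rw [← av_zpow]
  apply av_congr
  intro j _
  have h0 : rt m j ≠ 0 := by
    intro h; have := norm_rt m j; rw [h] at this; simp at this
  rw [conj_of_norm_one (norm_rt m j), zpow_sub₀ h0, zpow_natCast, zpow_natCast, inv_pow]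
  rfl

/-- the polynomials `z^a (z^N - 1)`, `a < N = 2^s`, are orthogonal in `L²(ν)`. -/
lemma integral_Q (s a b : ℕ) (ha : a < 2 ^ s) (hb : b < 2 ^ s) :
    ∫ z, (z ^ a * (z ^ (2 ^ s) - 1)) * conj (z ^ b * (z ^ (2 ^ s) - 1)) ∂nu =
      if a = b then ((2 * tl (s + 1) : ℝ) : ℂ) else 0 := by
  have h := integral_tail (F := fun z : ℂ => (z ^ a * (z ^ (2 ^ s) - 1)) *
    conj (z ^ b * (z ^ (2 ^ s) - 1))) (by fun_prop) s (if a = b then 2 else 0) ?_ ?_
  · rw [h]
    split_ifs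
    · rw [Complex.real_smul]; push_cast; ring
    · simp
  · intro m hm
    unfold av
    rw [Finset.sum_eq_zero, smul_zero]
    intro j _
    simp [rt_pow_of_le hm]
  · intro m hm
    have h1 : av m (fun z : ℂ => (z ^ a * (z ^ (2 ^ s) - 1)) *
        conj (z ^ b * (z ^ (2 ^ s) - 1))) =
        av m (fun z : ℂ => ((z ^ (a + 2 ^ s) * conj z ^ (b + 2 ^ s) + z ^ a * conj z ^ b) -
          (z ^ (a + 2 ^ s) * conj z ^ b + z ^ a * conj z ^ (b + 2 ^ s)))) := by
      apply av_congr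
      intro j _
      simp only [map_mul, map_pow, map_sub, map_one, pow_add]
      ring
    rw [h1, av_sub, av_add, av_add, av_monomial, av_monomial, av_monomial, av_monomial]
    have hN : (2 : ℤ) ^ (s + 1) ≤ (2 : ℤ) ^ m := pow_le_pow_right₀ (by norm_num) hm
    have hN2 : (2 : ℤ) ^ (s + 1) = 2 * 2 ^ s := by rw [pow_succ]; ring
    have hNpos : (0 : ℤ) < 2 ^ s := by positivity
    have ha' : (a : ℤ) < 2 ^ s := by exact_mod_cast ha
    have hb' : (b : ℤ) < 2 ^ s := by exact_mod_cast hb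
    have key : ∀ x : ℤ, |x| < 2 ^ m → (((2 ^ m : ℕ) : ℤ) ∣ x ↔ x = 0) := by
      intro x hx
      constructor
      · intro hd
        exact Int.eq_zero_of_abs_lt_dvd hd (by push_cast; exact hx)
      · rintro rfl; exact dvd_zero _
    have e1 : ((a + 2 ^ s : ℕ) : ℤ) - ((b + 2 ^ s : ℕ) : ℤ) = (a : ℤ) - b := by push_cast; ring
    have e2 : ((a + 2 ^ s : ℕ) : ℤ) - (b : ℤ) = (a : ℤ) - b + 2 ^ s := by push_cast; ring
    have e3 : (a : ℤ) - ((b + 2 ^ s : ℕ) : ℤ) = (a : ℤ) - b - 2 ^ s := by push_cast; ring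
    rw [e1, e2, e3]
    have k1 := key ((a : ℤ) - b) (by rw [abs_lt]; constructor <;> omega)
    have k2 := key ((a : ℤ) - b + 2 ^ s) (by rw [abs_lt]; constructor <;> omega)
    have k3 := key ((a : ℤ) - b - 2 ^ s) (by rw [abs_lt]; constructor <;> omega)
    simp only [k1, k2, k3]
    have n2 : ¬ ((a : ℤ) - b + 2 ^ s = 0) := by omega
    have n3 : ¬ ((a : ℤ) - b - 2 ^ s = 0) := by omega
    simp only [n2, n3, if_false]
    by_cases hab : a = b
    · subst hab; norm_num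
    · have : ¬ ((a : ℤ) - b = 0) := by omega
      simp [hab, this]

/-- The orthonormal polynomials `(2c)^{-1/2} z^a (z^N - 1)`. -/
noncomputable def gQ (s a : ℕ) : ℂ[X] :=
  C (((Real.sqrt (2 * tl (s + 1)))⁻¹ : ℝ) : ℂ) * (X ^ a * (X ^ (2 ^ s) - 1))

lemma eval_gQ (s a : ℕ) (z : ℂ) : (gQ s a).eval z =
    (((Real.sqrt (2 * tl (s + 1)))⁻¹ : ℝ) : ℂ) * (z ^ a * (z ^ (2 ^ s) - 1)) := by
  simp [gQ]

lemma natDegree_gQ (s a : ℕ) : (gQ s a).natDegree ≤ a + 2 ^ s := by
  unfold gQ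
  refine (natDegree_C_mul_le _ _).trans ?_
  refine natDegree_mul_le.trans ?_
  have h1 : (X ^ a : ℂ[X]).natDegree ≤ a := natDegree_X_pow_le a
  have h2 : (X ^ (2 ^ s) - 1 : ℂ[X]).natDegree ≤ 2 ^ s := by
    refine (natDegree_sub_le _ _).trans ?_
    simp
  omega

lemma orthonormal_gQ (s a b : ℕ) (ha : a < 2 ^ s) (hb : b < 2 ^ s) :
    ∫ z, (gQ s a).eval z * conj ((gQ s b).eval z) ∂nu = if a = b then 1 else 0 := by
  simp_rw [eval_gQ]
  set r : ℝ := (Real.sqrt (2 * tl (s + 1)))⁻¹ with hr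
  have h1 : ∀ z : ℂ, (r : ℂ) * (z ^ a * (z ^ (2 ^ s) - 1)) *
      conj ((r : ℂ) * (z ^ b * (z ^ (2 ^ s) - 1))) =
      ((r ^ 2 : ℝ) : ℂ) * ((z ^ a * (z ^ (2 ^ s) - 1)) * conj (z ^ b * (z ^ (2 ^ s) - 1))) := by
    intro z
    rw [map_mul (starRingEnd ℂ) (r : ℂ), Complex.conj_ofReal]
    push_cast; ring
  simp_rw [h1]
  rw [integral_const_mul, integral_Q s a b ha hb]
  have hpos : 0 < 2 * tl (s + 1) := by have := tl_pos (s + 1); positivity
  have h2 : r ^ 2 * (2 * tl (s + 1)) = 1 := by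
    rw [hr, inv_pow, Real.sq_sqrt hpos.le, inv_mul_cancel₀ hpos.ne']
  split_ifs
  · rw [← Complex.ofReal_mul, h2]; simp
  · simp

/-- The set of `2^s`-th roots of unity. -/
noncomputable def A (s : ℕ) : Finset ℂ := (Finset.range (2 ^ s)).image (rt s)

lemma rt_injOn (s : ℕ) : Set.InjOn (rt s) (Finset.range (2 ^ s)) := by
  intro i hi j hj h
  exact (prim s).pow_inj (Finset.mem_range.1 hi) (Finset.mem_range.1 hj) h

lemma mem_A_iff (s : ℕ) (z : ℂ) : z ∈ A s ↔ z ^ (2 ^ s) = 1 := by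
  constructor
  · intro h
    obtain ⟨j, _, rfl⟩ := Finset.mem_image.1 h
    exact rt_pow s j
  · intro h
    obtain ⟨i, hi, h2⟩ := (prim s).eq_pow_of_pow_eq_one h
    exact Finset.mem_image.2 ⟨i, Finset.mem_range.2 hi, h2⟩

lemma norm_of_mem_A {s : ℕ} {x : ℂ} (hx : x ∈ A s) : ‖x‖ = 1 := by
  obtain ⟨j, _, rfl⟩ := Finset.mem_image.1 hx
  exact norm_rt s j

lemma card_A (s : ℕ) : (A s).card = 2 ^ s := by
  rw [A, Finset.card_image_of_injOn (rt_injOn s), Finset.card_range]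

lemma sum_A_pow (s l : ℕ) (hl : 0 < l) (hl2 : l < 2 ^ s) : ∑ x ∈ A s, x ^ l = 0 := by
  rw [A, Finset.sum_image (rt_injOn s)]
  have h := av_zpow s (l : ℤ)
  rw [if_neg] at h
  · unfold av at h
    simp only [zpow_natCast] at h
    rcases smul_eq_zero.1 h with h | h
    · exfalso
      have : (0:ℝ) < ((2:ℝ) ^ s)⁻¹ := by positivity
      linarith
    · exact h
  · intro hd
    have h1 : 2 ^ s ∣ l := by exact_mod_cast hd
    have := Nat.le_of_dvd hl h1
    omega

lemma nu_atom (s : ℕ) {x : ℂ} (hx : x ∈ A s) : wt s * ((2 : ℝ) ^ s)⁻¹ ≤ (nu {x}).toReal := by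
  have h1 : ENNReal.ofReal (wt s * ((2 : ℝ) ^ s)⁻¹) ≤ nu {x} := by
    have h2 : (ENNReal.ofReal (wt s) • unif s) {x} ≤ nu {x} := by
      rw [nu]
      exact Measure.le_iff'.1 (Measure.le_sum _ s) _
    refine le_trans ?_ h2
    rw [Measure.smul_apply, smul_eq_mul, ENNReal.ofReal_mul (wt_pos s).le]
    gcongr
    rw [unif, Measure.smul_apply, Measure.finsetSum_apply, smul_eq_mul]
    obtain ⟨j, hj, rfl⟩ := Finset.mem_image.1 hx
    have h3 : (1 : ENNReal) ≤ ∑ i ∈ Finset.range (2 ^ s), (Measure.dirac (rt s i)) {rt s j} := by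
      refine le_trans ?_ (Finset.single_le_sum (fun _ _ => zero_le) hj)
      rw [Measure.dirac_apply' _ (measurableSet_singleton _)]
      simp
    calc ENNReal.ofReal (((2 : ℝ) ^ s)⁻¹) = ENNReal.ofReal (((2 : ℝ) ^ s)⁻¹) * 1 := by rw [mul_one]
      _ ≤ _ := by gcongr
  rw [← ENNReal.toReal_ofReal (r := wt s * ((2 : ℝ) ^ s)⁻¹)
    (mul_nonneg (wt_pos s).le (by positivity))]
  exact ENNReal.toReal_mono (measure_ne_top _ _) h1

/-- Lagrange polynomial at `x` for the `2^s`-th roots of unity. -/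
noncomputable def lag (s : ℕ) (x : ℂ) : ℂ[X] :=
  ∑ i ∈ Finset.range (2 ^ s), C ((((2 : ℝ) ^ s)⁻¹ : ℝ) * conj x ^ i) * X ^ i

lemma eval_lag (s : ℕ) (x z : ℂ) : (lag s x).eval z =
    ((((2 : ℝ) ^ s)⁻¹ : ℝ) : ℂ) * ∑ i ∈ Finset.range (2 ^ s), (conj x * z) ^ i := by
  simp only [lag, eval_finsetSum, eval_mul, eval_C, eval_pow, eval_X, Finset.mul_sum, mul_pow]
  apply Finset.sum_congr rfl; intro i _; ring

lemma natDegree_lag (s : ℕ) (x : ℂ) : (lag s x).natDegree ≤ 2 ^ s - 1 := by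
  apply natDegree_sum_le_of_forall_le
  intro i hi
  refine (natDegree_C_mul_le _ _).trans ?_
  rw [natDegree_X_pow]
  have := Finset.mem_range.1 hi
  omega

lemma eval_lag_self (s : ℕ) {x : ℂ} (hx : ‖x‖ = 1) : (lag s x).eval x = 1 := by
  rw [eval_lag]
  have : conj x * x = 1 := by
    rw [mul_comm, Complex.mul_conj, Complex.normSq_eq_norm_sq, hx]; simp
  rw [this]
  simp

lemma eval_lag_of_ne (s : ℕ) {x z : ℂ} (hx : x ^ (2 ^ s) = 1) (hx1 : ‖x‖ = 1)
    (hz : z ^ (2 ^ s) = 1) (hne : z ≠ x) : (lag s x).eval z = 0 := by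
  rw [eval_lag]
  have h1 : (conj x * z) ≠ 1 := by
    intro h
    apply hne
    have : conj x * x = 1 := by
      rw [mul_comm, Complex.mul_conj, Complex.normSq_eq_norm_sq, hx1]; simp
    have hx0 : conj x ≠ 0 := by
      intro h0; rw [h0] at this; simp at this
    exact mul_left_cancel₀ hx0 (h.trans this.symm)
  have h2 : (conj x * z) ^ (2 ^ s) = 1 := by
    rw [mul_pow, ← map_pow, hx, hz]; simp
  have h4 := mul_neg_geom_sum (conj x * z) (2 ^ s)
  rw [h2, sub_self] at h4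
  rcases mul_eq_zero.1 h4 with h | h
  · exact absurd (sub_eq_zero.1 h).symm h1
  · rw [h, mul_zero]

lemma av_lag (s m : ℕ) (hm : s < m) {x : ℂ} (hx : ‖x‖ = 1) :
    av m (fun z => ‖(lag s x).eval z‖ ^ 2) = ((2 : ℝ) ^ s)⁻¹ := by
  have h0 : av m (fun z => ((‖(lag s x).eval z‖ ^ 2 : ℝ) : ℂ)) = ((((2 : ℝ) ^ s)⁻¹ : ℝ) : ℂ) := by
    have h1 : ∀ z : ℂ, ((‖(lag s x).eval z‖ ^ 2 : ℝ) : ℂ) =
        ∑ i ∈ Finset.range (2 ^ s), ∑ j ∈ Finset.range (2 ^ s),
          (((((2 : ℝ) ^ s)⁻¹ : ℝ) : ℂ) ^ 2 * (conj x ^ i * x ^ j)) * (z ^ i * conj z ^ j) := by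
      intro z
      have h2 : ((‖(lag s x).eval z‖ ^ 2 : ℝ) : ℂ) =
          (lag s x).eval z * conj ((lag s x).eval z) := by
        rw [Complex.mul_conj, Complex.normSq_eq_norm_sq]
      rw [h2, eval_lag, map_mul, map_sum, Complex.conj_ofReal]
      rw [mul_mul_mul_comm, Finset.sum_mul_sum, Finset.mul_sum]
      apply Finset.sum_congr rfl; intro i _
      rw [Finset.mul_sum]
      apply Finset.sum_congr rfl; intro j _
      simp only [map_mul, map_pow, Complex.conj_conj, mul_pow]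
      ring
    simp_rw [h1]
    rw [av_sum]
    have h3 : ∀ i ∈ Finset.range (2 ^ s), av m (fun z : ℂ => ∑ j ∈ Finset.range (2 ^ s),
          (((((2 : ℝ) ^ s)⁻¹ : ℝ) : ℂ) ^ 2 * (conj x ^ i * x ^ j)) * (z ^ i * conj z ^ j)) =
          ((((2 : ℝ) ^ s)⁻¹ : ℝ) : ℂ) ^ 2 := by
      intro i hi
      rw [av_sum, Finset.sum_eq_single i]
      · rw [av_const_mul, av_monomial, sub_self, if_pos (dvd_zero _), ← mul_pow]
        have : conj x * x = 1 := by
          rw [mul_comm, Complex.mul_conj, Complex.normSq_eq_norm_sq, hx]; simp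
        rw [this]; simp
      · intro j hj hji
        rw [av_const_mul, av_monomial, if_neg, mul_zero]
        intro hd
        have hi' : (i : ℤ) < 2 ^ s := by exact_mod_cast Finset.mem_range.1 hi
        have hj' : (j : ℤ) < 2 ^ s := by exact_mod_cast Finset.mem_range.1 hj
        have hN : (2 : ℤ) ^ s ≤ (2 : ℤ) ^ m := pow_le_pow_right₀ (by norm_num) hm.le
        have := Int.eq_zero_of_abs_lt_dvd hd (by push_cast; rw [abs_lt]; constructor <;> omega)
        omega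
      · intro hi'; exact absurd hi hi'
    rw [Finset.sum_congr rfl h3]
    simp only [Finset.sum_const, Finset.card_range, nsmul_eq_mul]
    push_cast
    have : (2 : ℂ) ^ s ≠ 0 := pow_ne_zero _ two_ne_zero
    field_simp
  rw [av_ofReal] at h0
  exact_mod_cast h0

/-- The norm of the Lagrange polynomial. -/
lemma integral_lag_le (s : ℕ) {x : ℂ} (hx : x ∈ A s) :
    ∫ z, ‖(lag s x).eval z‖ ^ 2 ∂nu ≤ (nu {x}).toReal + tl (s + 1) * ((2 : ℝ) ^ s)⁻¹ := by
  have hx1 := norm_of_mem_A hx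
  have hxN := (mem_A_iff s x).1 hx
  set F : ℂ → ℝ := fun z => ‖(lag s x).eval z‖ ^ 2 with hF
  set G : ℂ → ℝ := Set.indicator {x} (fun _ => (1:ℝ)) with hG
  have hFc : Continuous F := by rw [hF]; fun_prop
  have hGm : StronglyMeasurable G := stronglyMeasurable_const.indicator (measurableSet_singleton x)
  have hFi := integrable_of_continuous hFc
  have hGi : Integrable G nu := (integrable_const (1:ℝ)).indicator (measurableSet_singleton x)
  have hsum := hasSum_integral_nu (hFc.stronglyMeasurable.sub hGm) (hFi.sub hGi)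
  have hintG : ∫ z, G z ∂nu = (nu {x}).toReal := by
    rw [hG, integral_indicator_const _ (measurableSet_singleton x)]
    simp [Measure.real]
  have e1 : ∫ z, (F - G) z ∂nu = (∫ z, F z ∂nu) - (nu {x}).toReal := by
    rw [← hintG, ← integral_sub hFi hGi]; rfl
  have hlow : ∀ m ≤ s, av m (F - G) = 0 := by
    intro m hm
    unfold av
    rw [Finset.sum_eq_zero, smul_zero]
    intro j _
    have hz := rt_pow_of_le hm j
    simp only [Pi.sub_apply, hF, hG]
    by_cases h : rt m j = x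
    · rw [h, eval_lag_self s hx1]; simp
    · rw [eval_lag_of_ne s hxN hx1 hz h]; simp [h]
  have hhigh : ∀ m, s < m → av m (F - G) ≤ ((2 : ℝ) ^ s)⁻¹ := by
    intro m hm
    rw [← av_lag s m hm hx1]
    unfold av
    simp only [smul_eq_mul]
    gcongr with j _
    simp only [Pi.sub_apply, hF, hG]
    have : 0 ≤ Set.indicator {x} (fun _ => (1:ℝ)) (rt m j) :=
      Set.indicator_nonneg (fun _ _ => zero_le_one) _
    linarith
  rw [e1] at hsum
  have h5 : HasSum (fun m => wt (m + (s + 1)) • av (m + (s + 1)) (F - G))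
      ((∫ z, F z ∂nu) - (nu {x}).toReal) := by
    have := (hasSum_nat_add_iff' (s + 1)).2 hsum
    have h3 : ∑ i ∈ Finset.range (s + 1), wt i • av i (F - G) = 0 := by
      apply Finset.sum_eq_zero
      intro i hi
      rw [hlow i (by have := Finset.mem_range.1 hi; omega), smul_zero]
    rw [h3, sub_zero] at this
    exact this
  have h6 : HasSum (fun m => wt (s + 1 + m) * ((2 : ℝ) ^ s)⁻¹) (tl (s + 1) * ((2 : ℝ) ^ s)⁻¹) :=
    (hasSum_wt (s + 1)).mul_right _
  have h7 := hasSum_le (fun m => ?_) h5 h6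
  · linarith
  · rw [add_comm m (s + 1), smul_eq_mul]
    exact mul_le_mul_of_nonneg_left (hhigh _ (by omega)) (wt_pos _).le

lemma hI_nu : ∀ F : ℂ → ℂ, Continuous F → Integrable F nu := fun _ hF =>
  integrable_of_continuous hF

/-- On the `2^s`-th roots of unity the Bergman function almost cancels the atom. -/
lemma bergman_atom_lower {s k : ℕ} (hk : 2 ^ s ≤ k) {e : Fin (k + 1) → ℂ[X]}
    (he : IsOrthonormalBasisOf nu k e) {x : ℂ} (hx : x ∈ A s) :
    1 - tl (s + 1) / wt s ≤ bergman e x * (nu {x}).toReal := by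
  have hx1 := norm_of_mem_A hx
  have h1 := sq_le_bergman hI_nu he (lag s x) ((natDegree_lag s x).trans (by omega)) x
  rw [eval_lag_self s hx1] at h1
  simp only [norm_one, one_pow] at h1
  have h2 := integral_lag_le s hx
  have h3 := nu_atom s hx
  have hw := wt_pos s
  have ht := tl_pos (s + 1)
  have hN : (0:ℝ) < ((2 : ℝ) ^ s)⁻¹ := by positivity
  set a := (nu {x}).toReal with ha
  set B := bergman e x with hB
  have hB0 : 0 ≤ B := bergman_nonneg e x
  have hapos : 0 < a := lt_of_lt_of_le (mul_pos hw hN) h3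
  have h4 : 1 ≤ (a + tl (s + 1) * ((2 : ℝ) ^ s)⁻¹) * B :=
    h1.trans (mul_le_mul_of_nonneg_right h2 hB0)
  have h5 := bergman_mul_atom_le_one hI_nu he x
  rw [← ha, ← hB] at h5
  -- `t * N⁻¹ * B ≤ t / wt`
  have h6 : tl (s + 1) * ((2 : ℝ) ^ s)⁻¹ * B ≤ tl (s + 1) / wt s := by
    rw [le_div_iff₀ hw]
    have h7 : B * (wt s * ((2 : ℝ) ^ s)⁻¹) ≤ 1 := le_trans (mul_le_mul_of_nonneg_left h3 hB0) h5
    calc tl (s + 1) * ((2 : ℝ) ^ s)⁻¹ * B * wt s =
        tl (s + 1) * (B * (wt s * ((2 : ℝ) ^ s)⁻¹)) := by ring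
      _ ≤ tl (s + 1) * 1 := by gcongr
      _ = tl (s + 1) := mul_one _
  nlinarith

end Pool.Agent.Lib.P58ffb3
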