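import Mathlib
import Pool.Agent.Lib.P58ffb3.Estimate

open MeasureTheory Filter Topology Complex Polynomial
open scoped Real ComplexConjugate

namespace Pool.Agent.Lib.P58ffb3

lemma main_bound {s k l : ℕ} (h1 : 2 ^ s ≤ k) (h2 : k < 2 ^ (s + 1)) (hl : 0 < l)
    (hl2 : l < 2 ^ s) {e : Fin (k + 1) → ℂ[X]} (he : IsOrthonormalBasisOf nu k e) :
    ‖∫ z, z ^ l * ((bergman e z : ℝ) : ℂ) ∂nu‖ ≤ 2 * (2 ^ s * (tl (s + 1) / wt s)) := by
  have hpow : 2 ^ (s + 1) = 2 * 2 ^ s := by rw [pow_succ]; ring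
  -- the explicit part
  set g : Fin (k + 1 - 2 ^ s) → ℂ[X] := fun a => gQ s a with hg
  have hgdeg : ∀ i, (g i).natDegree ≤ k := by
    intro i
    refine (natDegree_gQ s i).trans ?_
    have := i.2
    omega
  have hgon : ∀ i j, ∫ z, (g i).eval z * conj ((g j).eval z) ∂nu = if i = j then 1 else 0 := by
    intro i j
    have := orthonormal_gQ s i j (by have := i.2; omega) (by have := j.2; omega)
    rw [hg]
    simp only
    rw [this]
    simp [Fin.ext_iff]
  set BQ : ℂ → ℝ := fun z => ∑ i, ‖(g i).eval z‖ ^ 2 with hBQ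
  have hBQc : Continuous BQ := by rw [hBQ]; fun_prop
  have hBc := continuous_bergman e
  set R : ℂ → ℝ := fun z => bergman e z - BQ z with hR
  have hRc : Continuous R := hBc.sub hBQc
  have hR0 : ∀ z, 0 ≤ R z := fun z => by
    simp only [hR, hBQ]
    have := sum_le_bergman hI_nu he g hgdeg hgon z
    linarith
  -- total mass of `R`
  have hRint : ∫ z, R z ∂nu = 2 ^ s := by
    simp only [hR]
    rw [integral_sub (integrable_of_continuous hBc) (integrable_of_continuous hBQc),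
      integral_bergman hI_nu he]
    have : ∫ z, BQ z ∂nu = Fintype.card (Fin (k + 1 - 2 ^ s)) := integral_sum_normSq hI_nu g hgon
    rw [this, Fintype.card_fin, Nat.cast_sub (by omega)]
    push_cast; ring
  -- `B_Q` part is orthogonal to `z^l`
  have hBQl : ∫ z, z ^ l * ((BQ z : ℝ) : ℂ) ∂nu = 0 := by
    have hae : ∀ᵐ z ∂nu, z ^ l * ((BQ z : ℝ) : ℂ) =
        (((k + 1 - 2 ^ s : ℕ) : ℂ) * (((Real.sqrt (2 * tl (s + 1)))⁻¹ : ℝ) : ℂ) ^ 2) *
        ((z ^ l * (z ^ (2 ^ s) - 1)) * conj (z ^ 0 * (z ^ (2 ^ s) - 1))) := by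
      filter_upwards [ae_norm_eq_one] with z hz
      have h3 : BQ z = ((k + 1 - 2 ^ s : ℕ) : ℝ) *
          ((Real.sqrt (2 * tl (s + 1)))⁻¹ ^ 2 * ‖z ^ (2 ^ s) - 1‖ ^ 2) := by
        simp only [hBQ, hg]
        rw [Finset.sum_congr rfl (g := fun _ => (Real.sqrt (2 * tl (s + 1)))⁻¹ ^ 2 *
          ‖z ^ (2 ^ s) - 1‖ ^ 2)]
        · simp
        · intro i _
          rw [eval_gQ, norm_mul, norm_mul, norm_pow, hz, one_pow, one_mul, mul_pow,
            Complex.norm_real, Real.norm_eq_abs, sq_abs]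
      rw [h3]
      have h4 : ((‖z ^ (2 ^ s) - 1‖ ^ 2 : ℝ) : ℂ) = (z ^ (2 ^ s) - 1) * conj (z ^ (2 ^ s) - 1) := by
        rw [Complex.mul_conj, Complex.normSq_eq_norm_sq]
      push_cast
      have h4' : (‖z ^ (2 ^ s) - 1‖ : ℂ) ^ 2 = (z ^ (2 ^ s) - 1) * conj (z ^ (2 ^ s) - 1) := by
        rw [← h4]; push_cast; ring
      rw [h4']
      simp only [pow_zero, one_mul]
      ring
    rw [integral_congr_ae hae, integral_const_mul, integral_Q s l 0 hl2 (by positivity),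
      if_neg (by omega), mul_zero]
  -- split over the roots of unity
  have hsplit : ∫ z, z ^ l * ((bergman e z : ℝ) : ℂ) ∂nu = ∫ z, z ^ l * ((R z : ℝ) : ℂ) ∂nu := by
    have : ∀ z : ℂ, z ^ l * ((R z : ℝ) : ℂ) =
        z ^ l * ((bergman e z : ℝ) : ℂ) - z ^ l * ((BQ z : ℝ) : ℂ) := by
      intro z; simp only [hR]; push_cast; ring
    simp_rw [this]
    rw [integral_sub (integrable_of_continuous (by fun_prop))
      (integrable_of_continuous (by fun_prop)), hBQl, sub_zero]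
  rw [hsplit]
  have hAm : MeasurableSet (A s : Set ℂ) := (A s).measurableSet
  have hBQA : ∀ x ∈ A s, BQ x = 0 := by
    intro x hx
    simp only [hBQ, hg]
    apply Finset.sum_eq_zero
    intro i _
    rw [eval_gQ, (mem_A_iff s x).1 hx]; simp
  have hRA : ∀ x ∈ A s, R x = bergman e x := fun x hx => by
    simp only [hR, hBQA x hx, sub_zero]
  set b : ℂ → ℝ := fun x => bergman e x * (nu {x}).toReal with hb
  set δ : ℝ := tl (s + 1) / wt s with hδ
  have hb1 : ∀ x ∈ A s, b x ≤ 1 := fun x _ => bergman_mul_atom_le_one hI_nu he x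
  have hb2 : ∀ x ∈ A s, 1 - δ ≤ b x := fun x hx => bergman_atom_lower h1 he hx
  have hη : ∑ x ∈ A s, (1 - b x) ≤ 2 ^ s * δ := by
    calc ∑ x ∈ A s, (1 - b x) ≤ ∑ x ∈ A s, δ := Finset.sum_le_sum (fun x hx => by
          have := hb2 x hx; linarith)
      _ = 2 ^ s * δ := by rw [Finset.sum_const, card_A, nsmul_eq_mul]; push_cast; ring
  have hfc : Continuous (fun z : ℂ => z ^ l * ((R z : ℝ) : ℂ)) := by fun_prop
  rw [← integral_add_compl hAm (integrable_of_continuous hfc)]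
  -- first part
  have hp1 : ‖∫ z in (A s : Set ℂ), z ^ l * ((R z : ℝ) : ℂ) ∂nu‖ ≤ 2 ^ s * δ := by
    rw [setIntegral_finset _ (integrable_of_continuous hfc).integrableOn]
    have h3 : ∑ x ∈ A s, nu.real {x} • (x ^ l * ((R x : ℝ) : ℂ)) =
        - ∑ x ∈ A s, x ^ l * ((1 - b x : ℝ) : ℂ) := by
      have h4 : ∑ x ∈ A s, x ^ l * ((1 - b x : ℝ) : ℂ) =
          ∑ x ∈ A s, x ^ l - ∑ x ∈ A s, nu.real {x} • (x ^ l * ((R x : ℝ) : ℂ)) := by
        rw [← Finset.sum_sub_distrib]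
        apply Finset.sum_congr rfl
        intro x hx
        rw [hRA x hx, Complex.real_smul, Measure.real]
        simp only [hb]
        push_cast; ring
      rw [h4, sum_A_pow s l hl hl2]; ring
    rw [h3, norm_neg]
    refine (norm_sum_le _ _).trans ?_
    refine le_trans (le_of_eq ?_) hη
    apply Finset.sum_congr rfl
    intro x hx
    rw [norm_mul, norm_pow, norm_of_mem_A hx, one_pow, one_mul, Complex.norm_real,
      Real.norm_eq_abs, abs_of_nonneg (by have := hb1 x hx; linarith)]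
  -- second part
  have hp2 : ‖∫ z in (A s : Set ℂ)ᶜ, z ^ l * ((R z : ℝ) : ℂ) ∂nu‖ ≤ 2 ^ s * δ := by
    have h3 : ‖∫ z in (A s : Set ℂ)ᶜ, z ^ l * ((R z : ℝ) : ℂ) ∂nu‖ ≤
        ∫ z in (A s : Set ℂ)ᶜ, R z ∂nu := by
      refine (norm_integral_le_integral_norm _).trans (le_of_eq ?_)
      apply integral_congr_ae
      filter_upwards [ae_restrict_of_ae ae_norm_eq_one] with z hz
      rw [norm_mul, norm_pow, hz, one_pow, one_mul, Complex.norm_real, Real.norm_eq_abs,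
        abs_of_nonneg (hR0 z)]
    refine h3.trans ?_
    have h4 := integral_add_compl hAm (integrable_of_continuous hRc)
    rw [hRint, setIntegral_finset _ (integrable_of_continuous hRc).integrableOn] at h4
    have h5 : ∑ x ∈ A s, nu.real {x} • R x = ∑ x ∈ A s, b x := by
      apply Finset.sum_congr rfl
      intro x hx
      rw [hRA x hx, smul_eq_mul, Measure.real, mul_comm]
    rw [h5] at h4
    have h6 : ∑ x ∈ A s, (1 - b x) = 2 ^ s - ∑ x ∈ A s, b x := by
      rw [Finset.sum_sub_distrib]; simp [card_A]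
    linarith
  refine (norm_add_le _ _).trans ?_
  linarith

lemma ratio_le (s : ℕ) : tl (s + 1) / wt s ≤ 2 * Real.exp (-(4:ℝ) ^ s) := by
  have hw := wt_pos s
  rw [div_le_iff₀ hw]
  have h1 : tl (s + 1) = tl s * Real.exp (-(3 * (4:ℝ) ^ s)) := by
    unfold tl
    rw [← Real.exp_add]; congr 1; rw [pow_succ]; ring
  have h3 : (1:ℝ) ≤ (4:ℝ) ^ s := one_le_pow₀ (by norm_num)
  have h2 : Real.exp (-(3 * (4:ℝ) ^ s)) ≤ 1 / 2 := by
    have : Real.exp (-(3 * (4:ℝ) ^ s)) ≤ Real.exp (-1) := by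
      apply Real.exp_le_exp.2; linarith
    refine this.trans ?_
    rw [Real.exp_neg, ← one_div]
    apply one_div_le_one_div_of_le (by norm_num)
    have := Real.add_one_le_exp 1
    linarith
  have h4 : Real.exp (-(3 * (4:ℝ) ^ s)) ≤ Real.exp (-(4:ℝ) ^ s) := by
    apply Real.exp_le_exp.2; linarith
  have ht := tl_pos s
  have hwt : tl s / 2 ≤ wt s := by
    unfold wt
    rw [h1]
    nlinarith
  calc tl (s + 1) = tl s * Real.exp (-(3 * (4:ℝ) ^ s)) := h1
    _ ≤ tl s * Real.exp (-(4:ℝ) ^ s) := by gcongr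
    _ = 2 * Real.exp (-(4:ℝ) ^ s) * (tl s / 2) := by ring
    _ ≤ 2 * Real.exp (-(4:ℝ) ^ s) * wt s := by gcongr

/-- The moments of the Bergman measures tend to those of the uniform measure. -/
lemma tendsto_moment {l : ℕ} (hl : 0 < l) {e : (k : ℕ) → Fin (k + 1) → ℂ[X]}
    (he : ∀ k, IsOrthonormalBasisOf nu k (e k)) :
    Tendsto (fun k : ℕ => (((k : ℂ) + 1)⁻¹ * ∫ z, z ^ l * ((bergman (e k) z : ℝ) : ℂ) ∂nu))
      atTop (𝓝 0) := by
  rw [tendsto_zero_iff_norm_tendsto_zero]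
  -- comparison sequence
  have hlog : Tendsto (fun k : ℕ => Nat.log 2 k) atTop atTop := by
    apply tendsto_atTop_atTop.2
    intro b
    exact ⟨2 ^ b, fun a ha => Nat.le_log_of_pow_le (by norm_num) ha⟩
  have hE : Tendsto (fun s : ℕ => 4 * Real.exp (-(4:ℝ) ^ s)) atTop (𝓝 0) := by
    have h1 : Tendsto (fun s : ℕ => Real.exp (-(4:ℝ) ^ s)) atTop (𝓝 0) := tl_tendsto
    simpa using h1.const_mul 4
  have hcomp := hE.comp hlog
  apply squeeze_zero' (Eventually.of_forall (fun k => norm_nonneg _)) _ hcomp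
  filter_upwards [hlog.eventually_gt_atTop l, eventually_ge_atTop 1] with k hk hk1
  have hs1 : 2 ^ (Nat.log 2 k) ≤ k := Nat.pow_log_le_self 2 (by omega)
  have hs2 : k < 2 ^ (Nat.log 2 k + 1) := Nat.lt_pow_succ_log_self (by norm_num) k
  have hl2 : l < 2 ^ (Nat.log 2 k) := lt_of_lt_of_le hk (Nat.lt_two_pow_self).le
  have hb := main_bound hs1 hs2 hl hl2 (he k)
  simp only [Function.comp]
  set s := Nat.log 2 k
  rw [norm_mul, norm_inv]
  have hk' : ‖(k : ℂ) + 1‖ = (k : ℝ) + 1 := by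
    have : ((k : ℂ) + 1) = (((k : ℝ) + 1 : ℝ) : ℂ) := by push_cast; ring
    rw [this, Complex.norm_real, Real.norm_eq_abs, abs_of_pos (by positivity)]
  rw [hk']
  have hkpos : (0:ℝ) < (k : ℝ) + 1 := by positivity
  have hN : (2:ℝ) ^ s ≤ (k : ℝ) + 1 := by
    have : ((2 ^ s : ℕ) : ℝ) ≤ (k : ℝ) := by exact_mod_cast hs1
    push_cast at this; linarith
  have hr := ratio_le s
  have hr0 : 0 ≤ tl (s + 1) / wt s := div_nonneg (tl_pos _).le (wt_pos _).le
  rw [inv_mul_le_iff₀ hkpos]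
  calc ‖∫ z, z ^ l * ((bergman (e k) z : ℝ) : ℂ) ∂nu‖ ≤ 2 * (2 ^ s * (tl (s + 1) / wt s)) := hb
    _ ≤ 2 * (((k : ℝ) + 1) * (2 * Real.exp (-(4:ℝ) ^ s))) := by gcongr
    _ = ((k : ℝ) + 1) * (4 * Real.exp (-(4:ℝ) ^ s)) := by ring

/-- Failure of (W) at the origin. -/
lemma log_bergman_zero_ge (s : ℕ) {e : Fin (2 ^ s + 1) → ℂ[X]}
    (he : IsOrthonormalBasisOf nu (2 ^ s) e) :
    1 ≤ (2 * ((2 ^ s : ℕ) : ℝ))⁻¹ * Real.log (bergman e 0) := by
  have h1 := sum_le_bergman hI_nu he (fun _ : Fin 1 => gQ s 0)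
    (fun _ => (natDegree_gQ s 0).trans (by omega)) (by
      intro i j
      rw [orthonormal_gQ s 0 0 (by positivity) (by positivity)]
      simp [Subsingleton.elim i j]) 0
  simp only [Finset.univ_unique, Finset.sum_const, Finset.card_singleton, one_smul] at h1
  rw [eval_gQ] at h1
  have ht := tl_pos (s + 1)
  have h2 : ‖(((Real.sqrt (2 * tl (s + 1)))⁻¹ : ℝ) : ℂ) *
      ((0:ℂ) ^ 0 * ((0:ℂ) ^ (2 ^ s) - 1))‖ ^ 2 = (2 * tl (s + 1))⁻¹ := by
    have h0 : (0:ℂ) ^ (2 ^ s) = 0 := zero_pow (by positivity)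
    rw [h0, norm_mul, Complex.norm_real, Real.norm_eq_abs, mul_pow, sq_abs,
      inv_pow, Real.sq_sqrt (by positivity)]
    simp
  rw [h2] at h1
  have h3 : Real.log (2 * tl (s + 1))⁻¹ ≤ Real.log (bergman e 0) :=
    Real.log_le_log (by positivity) h1
  have h4 : Real.log (2 * tl (s + 1))⁻¹ = (4:ℝ) ^ (s + 1) - Real.log 2 := by
    rw [Real.log_inv, Real.log_mul (by norm_num) ht.ne', tl, Real.log_exp]; ring
  rw [h4] at h3
  have hpos : (0:ℝ) < 2 * ((2 ^ s : ℕ) : ℝ) := by positivity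
  rw [inv_mul_eq_div, le_div_iff₀ hpos, one_mul]
  refine le_trans ?_ h3
  push_cast
  have h5 : Real.log 2 ≤ 1 := by
    have := Real.log_two_lt_d9; linarith
  have h6 : (1:ℝ) ≤ 2 ^ s := one_le_pow₀ (by norm_num)
  have h7 : (4:ℝ) ^ (s + 1) = 4 * (2 ^ s * 2 ^ s) := by
    rw [pow_succ, show (4:ℝ) = 2 * 2 by norm_num, mul_pow]; ring
  rw [h7]
  nlinarith

lemma pos_of_ne_zero {p : ℂ[X]} (hp : p ≠ 0) : 0 < ∫ z, ‖p.eval z‖ ^ 2 ∂nu := by
  -- some level has a root of unity which is not a root of `p`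
  obtain ⟨m, hm⟩ : ∃ m, p.natDegree < 2 ^ m := ⟨p.natDegree, Nat.lt_two_pow_self⟩
  obtain ⟨x, hxA, hx⟩ : ∃ x ∈ A m, p.eval x ≠ 0 := by
    by_contra h
    push Not at h
    have h1 : A m ⊆ p.roots.toFinset := by
      intro x hx
      rw [Multiset.mem_toFinset, mem_roots hp]
      exact h x hx
    have h2 := Finset.card_le_card h1
    rw [card_A] at h2
    have h3 := Multiset.toFinset_card_le p.roots
    have h4 := card_roots' p
    omega
  have hc : Continuous (fun z => ‖p.eval z‖ ^ 2) := by fun_prop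
  have h3 : ∫ z in {x}, ‖p.eval z‖ ^ 2 ∂nu ≤ ∫ z, ‖p.eval z‖ ^ 2 ∂nu := by
    apply setIntegral_le_integral
    · exact integrable_of_continuous hc
    · exact Eventually.of_forall (fun z => by positivity)
  rw [integral_singleton, smul_eq_mul] at h3
  refine lt_of_lt_of_le ?_ h3
  apply mul_pos
  · refine lt_of_lt_of_le ?_ (nu_atom m hxA)
    exact mul_pos (wt_pos m) (by positivity)
  · have : 0 < ‖p.eval x‖ := norm_pos_iff.2 hx
    positivity

end Pool.Agent.Lib.P58ffb3
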