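import Mathlib
import Pool.Agent.Lib.P58ffb3.Limit

open MeasureTheory Filter Topology Complex Polynomial
open scoped Real ComplexConjugate

namespace Pool.Agent.Lib.P58ffb3

/-- trigonometric monomials as continuous functions on the plane -/
noncomputable def trig (n : ℤ) (z : ℂ) : ℂ := if 0 ≤ n then z ^ n.toNat else conj z ^ (-n).toNat

lemma continuous_trig (n : ℤ) : Continuous (trig n) := by
  unfold trig
  split_ifs <;> fun_prop

lemma norm_trig (n : ℤ) {z : ℂ} (hz : ‖z‖ = 1) : ‖trig n z‖ = 1 := by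
  unfold trig
  split_ifs <;> simp [hz]

lemma trig_exp (n : ℤ) (θ : ℝ) : trig n (Complex.exp (θ * I)) = Complex.exp (n * θ * I) := by
  unfold trig
  split_ifs with h
  · rw [← Complex.exp_nat_mul]
    congr 1
    have : ((n.toNat : ℕ) : ℂ) = (n : ℂ) := by
      have := Int.toNat_of_nonneg h
      exact_mod_cast this
    rw [this]; ring
  · push Not at h
    rw [← Complex.exp_conj, ← Complex.exp_nat_mul]
    congr 1
    have : (((-n).toNat : ℕ) : ℂ) = (-n : ℂ) := by
      have := Int.toNat_of_nonneg (a := -n) (by omega)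
      exact_mod_cast this
    rw [this]
    simp only [map_mul, Complex.conj_ofReal, Complex.conj_I]
    ring

/-- Uniform approximation on the circle by trigonometric polynomials. -/
lemma exists_trig_approx {f : ℂ → ℂ} (hf : Continuous f) {ε : ℝ} (hε : 0 < ε) :
    ∃ c : ℤ →₀ ℂ, ∀ z : ℂ, ‖z‖ = 1 → ‖f z - ∑ n ∈ c.support, c n * trig n z‖ < ε := by
  have : Fact (0 < 2 * π) := ⟨Real.two_pi_pos⟩
  let g : C(AddCircle (2 * π), ℂ) :=
    ⟨fun x => f (AddCircle.toCircle x : ℂ), hf.comp (by fun_prop)⟩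
  have hg : g ∈ (Submodule.span ℂ (Set.range (@fourier (2 * π)))).topologicalClosure := by
    rw [span_fourier_closure_eq_top]; exact Submodule.mem_top
  have hg' : g ∈ closure ((Submodule.span ℂ (Set.range (@fourier (2 * π))) : Submodule ℂ _) :
      Set C(AddCircle (2 * π), ℂ)) := hg
  obtain ⟨p, hp, hgp⟩ := Metric.mem_closure_iff.1 hg' ε hε
  obtain ⟨c, hc⟩ := Finsupp.mem_span_range_iff_exists_finsupp.1 hp
  refine ⟨c, fun z hz => ?_⟩
  set θ : ℝ := Complex.arg z with hθ
  have hzθ : z = Complex.exp (θ * I) := by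
    have := Complex.norm_mul_exp_arg_mul_I z
    rw [hz] at this
    simpa using this.symm
  have h1 : ‖g (θ : AddCircle (2 * π)) - p (θ : AddCircle (2 * π))‖ < ε := by
    have h2 := ContinuousMap.dist_lt_iff hε |>.1 hgp (θ : AddCircle (2 * π))
    rwa [dist_eq_norm] at h2
  have hπ : (π : ℂ) ≠ 0 := by exact_mod_cast Real.pi_ne_zero
  have h3 : g (θ : AddCircle (2 * π)) = f z := by
    change f _ = f z
    congr 1
    rw [AddCircle.toCircle_apply_mk, Circle.coe_exp, hzθ]
    congr 2
    push_cast; field_simp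
  have h4 : p (θ : AddCircle (2 * π)) = ∑ n ∈ c.support, c n * trig n z := by
    rw [← hc, Finsupp.sum, ContinuousMap.coe_sum, Finset.sum_apply]
    apply Finset.sum_congr rfl
    intro n _
    rw [ContinuousMap.coe_smul, Pi.smul_apply, smul_eq_mul, fourier_coe_apply, hzθ, trig_exp]
    congr 2
    push_cast; field_simp
  rw [h3, h4] at h1
  exact h1

/-- normalised arc length on the unit circle -/
noncomputable def arc : Measure ℂ :=
  ENNReal.ofReal (2 * π)⁻¹ • Measure.map (circleMap 0 1) (volume.restrict (Set.Ioc 0 (2 * π)))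

lemma integral_arc {E : Type*} [NormedAddCommGroup E] [NormedSpace ℝ E] {f : ℂ → E}
    (hf : Continuous f) : ∫ z, f z ∂arc = Real.circleAverage f 0 1 := by
  rw [arc, integral_smul_measure, integral_map (by fun_prop) (hf.aestronglyMeasurable),
    ENNReal.toReal_ofReal (by positivity), Real.circleAverage_def,
    intervalIntegral.integral_of_le Real.two_pi_pos.le]

instance : IsProbabilityMeasure arc := by
  constructor
  rw [arc, Measure.smul_apply, Measure.map_apply (by fun_prop) MeasurableSet.univ]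
  simp only [Set.preimage_univ, Measure.restrict_apply_univ, Real.volume_Ioc, sub_zero, smul_eq_mul]
  rw [← ENNReal.ofReal_mul (by positivity), inv_mul_cancel₀ (by positivity), ENNReal.ofReal_one]

lemma ae_norm_arc : ∀ᵐ z ∂arc, ‖z‖ = 1 := by
  rw [arc]
  apply Measure.ae_smul_measure
  rw [ae_map_iff (by fun_prop) (measurableSet_eq_fun (by fun_prop) (by fun_prop))]
  apply Eventually.of_forall
  intro θ
  simp

lemma integrable_arc {E : Type*} [NormedAddCommGroup E] [SecondCountableTopology E]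
    {F : ℂ → E} (hF : Continuous F) : Integrable F arc := by
  obtain ⟨C, hC⟩ := (isCompact_sphere (0:ℂ) 1).exists_bound_of_continuousOn hF.continuousOn
  apply Integrable.of_bound hF.aestronglyMeasurable C
  filter_upwards [ae_norm_arc] with z hz
  exact hC z (by simpa using hz)

lemma integral_arc_pow {l : ℕ} (hl : 0 < l) : ∫ z, z ^ l ∂arc = 0 := by
  rw [integral_arc (by fun_prop)]
  have h : DiffContOnCl ℂ (fun z : ℂ => z ^ l) (Metric.ball 0 |1|) := by
    apply Differentiable.diffContOnCl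
    fun_prop
  have := h.circleAverage
  rw [this]
  exact zero_pow hl.ne'

lemma integral_arc_trig (n : ℤ) : ∫ z, trig n z ∂arc = if n = 0 then 1 else 0 := by
  rcases lt_trichotomy n 0 with h | h | h
  · rw [if_neg h.ne]
    have h1 : ∀ z : ℂ, trig n z = conj (z ^ (-n).toNat) := by
      intro z; unfold trig; rw [if_neg (by omega), map_pow]
    simp_rw [h1]
    rw [integral_conj, integral_arc_pow (by omega)]; simp
  · subst h
    simp [trig]
  · rw [if_neg h.ne']
    have h1 : ∀ z : ℂ, trig n z = z ^ n.toNat := by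
      intro z; unfold trig; rw [if_pos h.le]
    simp_rw [h1]
    exact integral_arc_pow (by omega)

lemma tendsto_trig {e : (k : ℕ) → Fin (k + 1) → ℂ[X]}
    (he : ∀ k, IsOrthonormalBasisOf nu k (e k)) (n : ℤ) :
    Tendsto (fun k : ℕ => (((k : ℂ) + 1)⁻¹ * ∫ z, trig n z * ((bergman (e k) z : ℝ) : ℂ) ∂nu))
      atTop (𝓝 (∫ z, trig n z ∂arc)) := by
  rw [integral_arc_trig]
  rcases lt_trichotomy n 0 with h | h | h
  · rw [if_neg h.ne]
    have h1 := tendsto_moment (l := (-n).toNat) (by omega) he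
    have h2 := (Complex.continuous_conj.tendsto _).comp h1
    simp only [map_zero] at h2
    refine h2.congr (fun k => ?_)
    simp only [Function.comp, map_mul, map_inv₀, map_add, map_one, map_natCast]
    congr 1
    rw [← integral_conj]
    congr 1
    funext z
    unfold trig
    rw [if_neg (by omega)]
    simp
  · subst h
    rw [if_pos rfl]
    have h1 : ∀ k : ℕ, (((k : ℂ) + 1)⁻¹ * ∫ z, trig 0 z * ((bergman (e k) z : ℝ) : ℂ) ∂nu) = 1 := by
      intro k
      have h2 : ∀ z : ℂ, trig 0 z = 1 := fun z => by simp [trig]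
      simp_rw [h2, one_mul]
      rw [integral_complex_ofReal, integral_bergman hI_nu (he k)]
      push_cast
      exact inv_mul_cancel₀ (by exact_mod_cast Nat.succ_ne_zero k)
    simp_rw [h1]
    exact tendsto_const_nhds
  · rw [if_neg h.ne']
    have h1 := tendsto_moment (l := n.toNat) (by omega) he
    refine h1.congr (fun k => ?_)
    have h2 : ∀ z : ℂ, trig n z = z ^ n.toNat := by
      intro z; unfold trig; rw [if_pos h.le]
    simp_rw [h2]

theorem propertyS {e : (k : ℕ) → Fin (k + 1) → ℂ[X]}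
    (he : ∀ k, IsOrthonormalBasisOf nu k (e k)) : PropertyS nu arc e := by
  intro f hf
  have hfc : Continuous (fun z => ((f z : ℝ) : ℂ)) := by fun_prop
  -- complex version
  suffices h : Tendsto (fun k : ℕ => (((k : ℂ) + 1)⁻¹ *
      ∫ z, ((f z : ℝ) : ℂ) * ((bergman (e k) z : ℝ) : ℂ) ∂nu)) atTop
      (𝓝 (∫ z, ((f z : ℝ) : ℂ) ∂arc)) by
    have h1 := (Complex.continuous_re.tendsto _).comp h
    rw [integral_complex_ofReal, Complex.ofReal_re] at h1
    refine h1.congr (fun k => ?_)
    simp only [Function.comp]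
    have h2 : ∫ z, ((f z : ℝ) : ℂ) * ((bergman (e k) z : ℝ) : ℂ) ∂nu =
        ((∫ z, f z * bergman (e k) z ∂nu : ℝ) : ℂ) := by
      rw [← integral_complex_ofReal]
      congr 1; funext z; push_cast; ring
    have h3 : ((k : ℂ) + 1)⁻¹ = ((((k : ℝ) + 1)⁻¹ : ℝ) : ℂ) := by push_cast; ring
    rw [h2, h3, ← Complex.ofReal_mul, Complex.ofReal_re]
  rw [Metric.tendsto_atTop]
  intro ε hε
  obtain ⟨c, hc⟩ := exists_trig_approx hfc (ε := ε / 3) (by positivity)
  set P : ℂ → ℂ := fun z => ∑ n ∈ c.support, c n * trig n z with hP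
  have hPc : Continuous P := by
    rw [hP]
    exact continuous_finsetSum _ (fun n _ => continuous_const.mul (continuous_trig n))
  have hBc : ∀ k, Continuous (fun z => ((bergman (e k) z : ℝ) : ℂ)) := fun k =>
    Complex.continuous_ofReal.comp (continuous_bergman _)
  -- convergence for `P`
  have hPt : Tendsto (fun k : ℕ => (((k : ℂ) + 1)⁻¹ *
      ∫ z, P z * ((bergman (e k) z : ℝ) : ℂ) ∂nu)) atTop (𝓝 (∫ z, P z ∂arc)) := by
    have h1 : ∀ k : ℕ, (((k : ℂ) + 1)⁻¹ * ∫ z, P z * ((bergman (e k) z : ℝ) : ℂ) ∂nu) =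
        ∑ n ∈ c.support, c n * (((k : ℂ) + 1)⁻¹ *
          ∫ z, trig n z * ((bergman (e k) z : ℝ) : ℂ) ∂nu) := by
      intro k
      simp only [hP, Finset.sum_mul]
      rw [integral_finsetSum, Finset.mul_sum]
      · apply Finset.sum_congr rfl
        intro n _
        have : ∀ z : ℂ, c n * trig n z * ((bergman (e k) z : ℝ) : ℂ) =
          c n * (trig n z * ((bergman (e k) z : ℝ) : ℂ)) := fun z => by ring
        simp_rw [this]
        rw [integral_const_mul]; ring
      · intro n _
        exact integrable_of_continuous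
          ((continuous_const.mul (continuous_trig n)).mul (hBc k))
    have h2 : ∫ z, P z ∂arc = ∑ n ∈ c.support, c n * ∫ z, trig n z ∂arc := by
      simp only [hP]
      rw [integral_finsetSum]
      · apply Finset.sum_congr rfl
        intro n _
        rw [integral_const_mul]
      · intro n _
        exact integrable_arc (continuous_const.mul (continuous_trig n))
    simp_rw [h1]
    rw [h2]
    apply tendsto_finsetSum
    intro n _
    exact (tendsto_trig he n).const_mul _
  obtain ⟨K, hK⟩ := Metric.tendsto_atTop.1 hPt (ε / 3) (by positivity)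
  refine ⟨K, fun k hk => ?_⟩
  have hk1 := hK k hk
  rw [dist_eq_norm] at hk1 ⊢
  -- difference on the `ν` side
  have hd1 : ‖(((k : ℂ) + 1)⁻¹ * ∫ z, ((f z : ℝ) : ℂ) * ((bergman (e k) z : ℝ) : ℂ) ∂nu) -
      (((k : ℂ) + 1)⁻¹ * ∫ z, P z * ((bergman (e k) z : ℝ) : ℂ) ∂nu)‖ ≤ ε / 3 := by
    have hi1 : Integrable (fun z => ((f z : ℝ) : ℂ) * ((bergman (e k) z : ℝ) : ℂ)) nu :=
      integrable_of_continuous (hfc.mul (hBc k))
    have hi2 : Integrable (fun z => P z * ((bergman (e k) z : ℝ) : ℂ)) nu :=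
      integrable_of_continuous (hPc.mul (hBc k))
    rw [← mul_sub, ← integral_sub hi1 hi2]
    have h1 : ‖∫ z, ((f z : ℝ) : ℂ) * ((bergman (e k) z : ℝ) : ℂ) -
        P z * ((bergman (e k) z : ℝ) : ℂ) ∂nu‖ ≤ ∫ z, (ε / 3) * bergman (e k) z ∂nu := by
      apply norm_integral_le_of_norm_le
      · exact integrable_of_continuous (continuous_const.mul (continuous_bergman _))
      · filter_upwards [ae_norm_eq_one] with z hz
        rw [← sub_mul, norm_mul, Complex.norm_real, Real.norm_eq_abs,
          abs_of_nonneg (bergman_nonneg _ _)]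
        exact mul_le_mul_of_nonneg_right (hc z hz).le (bergman_nonneg _ _)
    rw [integral_const_mul, integral_bergman hI_nu (he k)] at h1
    have hk' : ‖(k : ℂ) + 1‖ = (k : ℝ) + 1 := by
      have : ((k : ℂ) + 1) = (((k : ℝ) + 1 : ℝ) : ℂ) := by push_cast; ring
      rw [this, Complex.norm_real, Real.norm_eq_abs, abs_of_pos (by positivity)]
    rw [norm_mul, norm_inv, hk', inv_mul_le_iff₀ (by positivity)]
    linarith
  have hd2 : ‖(∫ z, P z ∂arc) - ∫ z, ((f z : ℝ) : ℂ) ∂arc‖ ≤ ε / 3 := by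
    rw [← integral_sub (integrable_arc hPc) (integrable_arc hfc)]
    have h1 : ‖∫ z, P z - ((f z : ℝ) : ℂ) ∂arc‖ ≤ ∫ z, (ε / 3) ∂arc := by
      apply norm_integral_le_of_norm_le (integrable_const _)
      filter_upwards [ae_norm_arc] with z hz
      rw [norm_sub_rev]
      exact (hc z hz).le
    simpa using h1
  calc _ = ‖((((k : ℂ) + 1)⁻¹ * ∫ z, ((f z : ℝ) : ℂ) * ((bergman (e k) z : ℝ) : ℂ) ∂nu) -
      (((k : ℂ) + 1)⁻¹ * ∫ z, P z * ((bergman (e k) z : ℝ) : ℂ) ∂nu)) +
      ((((k : ℂ) + 1)⁻¹ * ∫ z, P z * ((bergman (e k) z : ℝ) : ℂ) ∂nu) - ∫ z, P z ∂arc) +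
      ((∫ z, P z ∂arc) - ∫ z, ((f z : ℝ) : ℂ) ∂arc)‖ := by congr 1; ring
    _ < ε := by
      refine lt_of_le_of_lt (norm_add₃_le) ?_
      linarith

end Pool.Agent.Lib.P58ffb3
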