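import Mathlib
import Pool.Agent.Lib.P58ffb3.Extremal
import Pool.Agent.Lib.P58ffb3.Weak

open MeasureTheory Filter Topology Complex Polynomial
open scoped Real ComplexConjugate

namespace Pool.Agent.Lib.P58ffb3

section Polar

variable {φ : ℂ → ℝ} (hφ : ContDiff ℝ 2 φ)

/-- unit vector in direction θ -/
noncomputable def ev (θ : ℝ) : ℂ := (Real.cos θ : ℂ) + (Real.sin θ : ℂ) * I

lemma ev_eq (θ : ℝ) : ev θ = circleMap 0 1 θ := by
  rw [ev, circleMap, Complex.exp_mul_I]
  simp

lemma norm_ev (θ : ℝ) : ‖ev θ‖ = 1 := by rw [ev_eq]; simp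

lemma continuous_ev : Continuous ev := by unfold ev; fun_prop

lemma hasDerivAt_ev (θ : ℝ) : HasDerivAt ev (I * ev θ) θ := by
  have h := hasDerivAt_circleMap 0 1 θ
  have h1 : ev = circleMap 0 1 := funext ev_eq
  rw [h1]
  convert h using 1
  ring

/-- second derivative as a bilinear function -/
noncomputable def d2 (φ : ℂ → ℝ) (z v w : ℂ) : ℝ := fderiv ℝ (fderiv ℝ φ) z v w

lemma laplacian_eq (z : ℂ) : Laplacian.laplacian φ z = d2 φ z 1 1 + d2 φ z I I := by
  rw [InnerProductSpace.laplacian_eq_iteratedFDeriv_complexPlane]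
  simp only [iteratedFDeriv_two_apply]
  rfl

lemma laplacian_eq_ev (z : ℂ) (θ : ℝ) :
    Laplacian.laplacian φ z = d2 φ z (ev θ) (ev θ) + d2 φ z (I * ev θ) (I * ev θ) := by
  rw [laplacian_eq]
  have e1 : ev θ = (Real.cos θ) • (1 : ℂ) + (Real.sin θ) • I := by
    simp [ev]
  have e2 : I * ev θ = (-Real.sin θ) • (1 : ℂ) + (Real.cos θ) • I := by
    rw [ev]; simp only [Complex.real_smul]; push_cast
    linear_combination (Complex.sin θ) * I_sq
  rw [e2, e1]
  unfold d2
  simp only [map_add, map_smul, add_apply, smul_apply,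
    smul_eq_mul]
  have := Real.cos_sq_add_sin_sq θ
  linear_combination (-(((fderiv ℝ (fderiv ℝ φ) z) 1) 1 + ((fderiv ℝ (fderiv ℝ φ) z) I) I)) * this

include hφ in
lemma hasFDerivAt_fderiv (z : ℂ) : HasFDerivAt (fderiv ℝ φ) (fderiv ℝ (fderiv ℝ φ) z) z := by
  have h : ContDiff ℝ 1 (fderiv ℝ φ) := hφ.fderiv_right (by norm_num)
  exact (h.differentiable (by norm_num) z).hasFDerivAt

include hφ in
lemma continuous_d2 {X : Type*} [TopologicalSpace X] {f g h : X → ℂ} (hf : Continuous f)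
    (hg : Continuous g) (hh : Continuous h) : Continuous (fun x => d2 φ (f x) (g x) (h x)) := by
  have h1 : ContDiff ℝ 1 (fderiv ℝ φ) := hφ.fderiv_right (by norm_num)
  have h2 : Continuous (fderiv ℝ (fderiv ℝ φ)) := h1.continuous_fderiv (by norm_num)
  exact ((h2.comp hf).clm_apply hg).clm_apply hh

include hφ in
lemma continuous_d1 {X : Type*} [TopologicalSpace X] {f g : X → ℂ} (hf : Continuous f)
    (hg : Continuous g) : Continuous (fun x => fderiv ℝ φ (f x) (g x)) := by
  have h2 : Continuous (fderiv ℝ φ) := hφ.continuous_fderiv (by norm_num)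
  exact (h2.comp hf).clm_apply hg

include hφ in
/-- the radial derivative -/
lemma hasDerivAt_radial (θ r : ℝ) :
    HasDerivAt (fun r : ℝ => φ (r * ev θ)) (fderiv ℝ φ (r * ev θ) (ev θ)) r := by
  have h1 : HasDerivAt (fun r : ℝ => (r : ℂ) * ev θ) (ev θ) r := by
    have := (Complex.ofRealCLM.hasDerivAt (x := r)).mul_const (ev θ)
    simpa using this
  have h2 := ((hφ.differentiable (by norm_num)) ((r : ℂ) * ev θ)).hasFDerivAt
  exact h2.comp_hasDerivAt r h1

include hφ in
lemma hasDerivAt_radial2 (θ r : ℝ) :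
    HasDerivAt (fun r : ℝ => fderiv ℝ φ (r * ev θ) (ev θ)) (d2 φ (r * ev θ) (ev θ) (ev θ)) r := by
  have h1 : HasDerivAt (fun r : ℝ => (r : ℂ) * ev θ) (ev θ) r := by
    have := (Complex.ofRealCLM.hasDerivAt (x := r)).mul_const (ev θ)
    simpa using this
  have h2 := hasFDerivAt_fderiv hφ ((r : ℂ) * ev θ)
  have h3 := h2.comp_hasDerivAt r h1
  exact h3.clm_apply (hasDerivAt_const r (ev θ)) |>.congr_deriv (by simp [d2])

include hφ in
lemma hasDerivAt_angular (θ r : ℝ) :
    HasDerivAt (fun θ : ℝ => fderiv ℝ φ (r * ev θ) (r * (I * ev θ)))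
      (d2 φ (r * ev θ) (r * (I * ev θ)) (r * (I * ev θ)) - fderiv ℝ φ (r * ev θ) (r * ev θ)) θ := by
  have h1 : HasDerivAt (fun θ : ℝ => (r : ℂ) * ev θ) (r * (I * ev θ)) θ :=
    (hasDerivAt_ev θ).const_mul _
  have h2 := hasFDerivAt_fderiv hφ ((r : ℂ) * ev θ)
  have h3 := h2.comp_hasDerivAt θ h1
  have h4 : HasDerivAt (fun θ : ℝ => (r : ℂ) * (I * ev θ)) (-(r * ev θ)) θ := by
    have := ((hasDerivAt_ev θ).const_mul I).const_mul (r : ℂ)
    refine this.congr_deriv ?_
    linear_combination ((r : ℂ) * ev θ) * I_sq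
  have h5 := h3.clm_apply h4
  refine h5.congr_deriv ?_
  simp only [d2, map_neg, Function.comp]
  ring

include hφ in
/-- integrating out the angle -/
lemma integral_angular (r : ℝ) :
    ∫ θ in (-π)..π, (d2 φ (r * ev θ) (r * (I * ev θ)) (r * (I * ev θ)) -
      fderiv ℝ φ (r * ev θ) (r * ev θ)) = 0 := by
  rw [intervalIntegral.integral_eq_sub_of_hasDerivAt (fun θ _ => hasDerivAt_angular hφ θ r)]
  · have : ev π = ev (-π) := by simp [ev]
    rw [this, sub_self]
  · apply Continuous.intervalIntegrable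
    have := continuous_ev
    exact (continuous_d2 hφ (by fun_prop) (by fun_prop) (by fun_prop)).sub
      (continuous_d1 hφ (by fun_prop) (by fun_prop))

include hφ in
lemma integral_radial (θ : ℝ) {R : ℝ} (hR : 1 ≤ R) (hR1 : φ (R * ev θ) = 0)
    (hR2 : fderiv ℝ φ (R * ev θ) = 0) :
    ∫ r in (1:ℝ)..R, Real.log r * (fderiv ℝ φ (r * ev θ) (ev θ) +
      r * d2 φ (r * ev θ) (ev θ) (ev θ)) = φ (ev θ) := by
  have hder : ∀ r ∈ Set.uIcc 1 R, HasDerivAt (fun r : ℝ => Real.log r *
      (r * fderiv ℝ φ (r * ev θ) (ev θ)) - φ (r * ev θ))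
      (Real.log r * (fderiv ℝ φ (r * ev θ) (ev θ) + r * d2 φ (r * ev θ) (ev θ) (ev θ))) r := by
    intro r hr
    rw [Set.uIcc_of_le hR] at hr
    have hr0 : r ≠ 0 := by linarith [hr.1]
    have h1 := Real.hasDerivAt_log hr0
    have h2 := (hasDerivAt_id r).mul (hasDerivAt_radial2 hφ θ r)
    have h3 := (h1.mul h2).sub (hasDerivAt_radial hφ θ r)
    refine h3.congr_deriv ?_
    simp only [id, Pi.mul_apply, one_mul]
    field_simp
    ring
  rw [intervalIntegral.integral_eq_sub_of_hasDerivAt hder]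
  · simp only [hR1, hR2, Real.log_one, ofReal_one, one_mul]
    simp
  · apply ContinuousOn.intervalIntegrable
    apply ContinuousOn.mul
    · apply Real.continuousOn_log.mono
      intro r hr
      rw [Set.uIcc_of_le hR] at hr
      simp only [Set.mem_compl_iff, Set.mem_singleton_iff]
      linarith [hr.1]
    · apply Continuous.continuousOn
      have := continuous_ev
      exact (continuous_d1 hφ (by fun_prop) (by fun_prop)).add
        ((continuous_id).mul (continuous_d2 hφ (by fun_prop) (by fun_prop) (by fun_prop)))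

include hφ in
theorem integral_posLog_laplacian (hs : HasCompactSupport φ) :
    ∫ z, Real.posLog ‖z‖ * Laplacian.laplacian φ z = 2 * π * ∫ z, φ z ∂arc := by
  have hev := continuous_ev
  -- radius bounding the support
  obtain ⟨R, hR1, hR⟩ : ∃ R : ℝ, 1 ≤ R ∧ ∀ z : ℂ, R ≤ ‖z‖ → z ∉ tsupport φ := by
    obtain ⟨R, hR⟩ := hs.isBounded.subset_closedBall 0
    refine ⟨max 1 (R + 1), le_max_left _ _, fun z hz hz2 => ?_⟩
    have h1 := hR hz2
    simp only [Metric.mem_closedBall, dist_zero_right] at h1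
    have h2 := le_max_right 1 (R + 1)
    linarith
  have hφ0 : ∀ z : ℂ, R ≤ ‖z‖ → φ z = 0 := fun z hz => image_eq_zero_of_notMem_tsupport (hR z hz)
  have hφ1 : ∀ z : ℂ, R ≤ ‖z‖ → fderiv ℝ φ z = 0 := fun z hz => by
    have : z ∉ tsupport (fderiv ℝ φ) := fun h => hR z hz (tsupport_fderiv_subset ℝ h)
    exact image_eq_zero_of_notMem_tsupport this
  have hφ2 : ∀ z : ℂ, R ≤ ‖z‖ → fderiv ℝ (fderiv ℝ φ) z = 0 := fun z hz => by
    have : z ∉ tsupport (fderiv ℝ (fderiv ℝ φ)) := fun h =>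
      hR z hz (tsupport_fderiv_subset ℝ (tsupport_fderiv_subset ℝ h))
    exact image_eq_zero_of_notMem_tsupport this
  have hlap0 : ∀ z : ℂ, R ≤ ‖z‖ → Laplacian.laplacian φ z = 0 := fun z hz => by
    rw [laplacian_eq, d2, d2, hφ2 z hz]; simp
  -- polar coordinates
  rw [← Complex.integral_comp_polarCoord_symm]
  set T1 : ℝ × ℝ → ℝ := fun p => Real.log p.1 * (fderiv ℝ φ (p.1 * ev p.2) (ev p.2) +
      p.1 * d2 φ (p.1 * ev p.2) (ev p.2) (ev p.2)) with hT1
  set T2 : ℝ × ℝ → ℝ := fun p => Real.log p.1 / p.1 * (d2 φ (p.1 * ev p.2)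
      (p.1 * (I * ev p.2)) (p.1 * (I * ev p.2)) - fderiv ℝ φ (p.1 * ev p.2) (p.1 * ev p.2)) with hT2
  have hkey : ∀ p : ℝ × ℝ, 0 < p.1 → p.1 • (Real.posLog ‖Complex.polarCoord.symm p‖ *
      Laplacian.laplacian φ (Complex.polarCoord.symm p)) =
      Set.indicator (Set.Icc 1 R ×ˢ Set.univ) (fun p => T1 p + T2 p) p := by
    intro p hp
    have h1 : Complex.polarCoord.symm p = (p.1 : ℂ) * ev p.2 := by
      rw [Complex.polarCoord_symm_apply, ev]
    have h2 : ‖(p.1 : ℂ) * ev p.2‖ = p.1 := by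
      rw [norm_mul, norm_ev, mul_one, Complex.norm_real, Real.norm_eq_abs, abs_of_pos hp]
    rw [h1, h2]
    by_cases hin : p ∈ Set.Icc 1 R ×ˢ (Set.univ : Set ℝ)
    · rw [Set.indicator_of_mem hin]
      have hp1 : 1 ≤ p.1 := hin.1.1
      have hpl : Real.posLog p.1 = Real.log p.1 :=
        Real.posLog_eq_log (by rw [abs_of_pos hp]; exact hp1)
      rw [hpl, laplacian_eq_ev _ p.2]
      simp only [hT1, hT2, smul_eq_mul]
      have e1 : ((p.1 : ℂ) * (I * ev p.2)) = p.1 • (I * ev p.2) := by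
        rw [Complex.real_smul]
      have e2 : ((p.1 : ℂ) * ev p.2) = p.1 • ev p.2 := by rw [Complex.real_smul]
      have e3 : d2 φ (p.1 * ev p.2) (p.1 * (I * ev p.2)) (p.1 * (I * ev p.2)) =
          p.1 * (p.1 * d2 φ (p.1 * ev p.2) (I * ev p.2) (I * ev p.2)) := by
        rw [e1]; unfold d2
        simp only [map_smul, smul_apply, smul_eq_mul]
      have e4 : fderiv ℝ φ (p.1 * ev p.2) (p.1 * ev p.2) =
          p.1 * fderiv ℝ φ (p.1 * ev p.2) (ev p.2) := by
        nth_rewrite 2 [e2]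
        simp only [map_smul, smul_eq_mul]
      rw [e3, e4]
      have hp0 : p.1 ≠ 0 := hp.ne'
      field_simp
      ring
    · rw [Set.indicator_of_notMem hin]
      by_cases h3 : p.1 ≤ 1
      · have : Real.posLog p.1 = 0 := by
          rw [Real.posLog_eq_zero_iff, abs_of_pos hp]; exact h3
        rw [this]; simp
      · push Not at h3
        have h4 : R ≤ p.1 := by
          by_contra h5
          push Not at h5
          exact hin ⟨⟨h3.le, h5.le⟩, Set.mem_univ _⟩
        rw [hlap0 _ (by rw [h2]; exact h4)]; simp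
  have hset : MeasurableSet polarCoord.target := by
    rw [polarCoord_target]; exact measurableSet_Ioi.prod measurableSet_Ioo
  rw [setIntegral_congr_fun hset (fun p hp => hkey p (by
    rw [polarCoord_target] at hp; exact hp.1))]
  rw [setIntegral_indicator (measurableSet_Icc.prod MeasurableSet.univ)]
  have hinter : polarCoord.target ∩ Set.Icc 1 R ×ˢ Set.univ = Set.Icc 1 R ×ˢ Set.Ioo (-π) π := by
    rw [polarCoord_target]
    ext p
    simp only [Set.mem_inter_iff, Set.mem_prod, Set.mem_Ioi, Set.mem_Ioo, Set.mem_Icc,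
      Set.mem_univ, and_true]
    constructor
    · rintro ⟨⟨_, h⟩, h2⟩; exact ⟨h2, h⟩
    · rintro ⟨h2, h⟩; exact ⟨⟨by linarith [h2.1], h⟩, h2⟩
  rw [hinter]
  -- continuity on the compact rectangle
  have hlogc : ContinuousOn (fun p : ℝ × ℝ => Real.log p.1) (Set.Icc 1 R ×ˢ Set.Icc (-π) π) := by
    apply ContinuousOn.log continuous_fst.continuousOn
    intro p hp
    have : (1:ℝ) ≤ p.1 := hp.1.1
    linarith
  have hT1c : ContinuousOn T1 (Set.Icc 1 R ×ˢ Set.Icc (-π) π) := by
    apply hlogc.mul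
    apply Continuous.continuousOn
    exact (continuous_d1 hφ (by fun_prop) (by fun_prop)).add
        (continuous_fst.mul (continuous_d2 hφ (by fun_prop) (by fun_prop) (by fun_prop)))
  have hT2c : ContinuousOn T2 (Set.Icc 1 R ×ˢ Set.Icc (-π) π) := by
    apply (hlogc.div continuous_fst.continuousOn _).mul
    · apply Continuous.continuousOn
      exact (continuous_d2 hφ (by fun_prop) (by fun_prop) (by fun_prop)).sub
        (continuous_d1 hφ (by fun_prop) (by fun_prop))
    · intro p hp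
      have : (1:ℝ) ≤ p.1 := hp.1.1
      linarith
  have hcomp : IsCompact (Set.Icc 1 R ×ˢ Set.Icc (-π) π) := isCompact_Icc.prod isCompact_Icc
  have hsub : Set.Icc 1 R ×ˢ Set.Ioo (-π) π ⊆ Set.Icc 1 R ×ˢ Set.Icc (-π) π :=
    Set.prod_mono subset_rfl Set.Ioo_subset_Icc_self
  have hT1i : IntegrableOn T1 (Set.Icc 1 R ×ˢ Set.Ioo (-π) π) :=
    (hT1c.integrableOn_compact hcomp).mono_set hsub
  have hT2i : IntegrableOn T2 (Set.Icc 1 R ×ˢ Set.Ioo (-π) π) :=
    (hT2c.integrableOn_compact hcomp).mono_set hsub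
  rw [integral_add hT1i hT2i]
  have hπ : -π ≤ π := by linarith [Real.pi_pos]
  -- the angular part vanishes
  have hz2 : ∫ p in Set.Icc 1 R ×ˢ Set.Ioo (-π) π, T2 p = 0 := by
    rw [Measure.volume_eq_prod] at hT2i ⊢
    rw [setIntegral_prod _ hT2i]
    have : ∀ r : ℝ, ∫ θ in Set.Ioo (-π) π, T2 (r, θ) = 0 := by
      intro r
      rw [← integral_Ioc_eq_integral_Ioo, ← intervalIntegral.integral_of_le hπ]
      simp only [hT2]
      rw [intervalIntegral.integral_const_mul, integral_angular hφ r, mul_zero]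
    simp_rw [this]
    simp
  -- the radial part
  have hz1 : ∫ p in Set.Icc 1 R ×ˢ Set.Ioo (-π) π, T1 p = ∫ θ in (-π)..π, φ (ev θ) := by
    rw [Measure.volume_eq_prod] at hT1i ⊢
    rw [setIntegral_prod _ hT1i]
    have hsw : ∫ r in Set.Icc 1 R, ∫ θ in Set.Ioo (-π) π, T1 (r, θ) =
        ∫ θ in Set.Ioo (-π) π, ∫ r in Set.Icc 1 R, T1 (r, θ) := by
      apply integral_integral_swap
      rw [IntegrableOn, ← Measure.prod_restrict] at hT1i
      exact hT1i
    rw [hsw, intervalIntegral.integral_of_le hπ, integral_Ioc_eq_integral_Ioo]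
    apply setIntegral_congr_fun measurableSet_Ioo
    intro θ _
    simp only [hT1]
    rw [integral_Icc_eq_integral_Ioc, ← intervalIntegral.integral_of_le hR1]
    have hn : R ≤ ‖(R : ℂ) * ev θ‖ := by
      rw [norm_mul, norm_ev, mul_one, Complex.norm_real, Real.norm_eq_abs]
      exact le_abs_self R
    exact integral_radial hφ θ hR1 (hφ0 _ hn) (hφ1 _ hn)
  rw [hz1, hz2, add_zero, integral_arc hφ.continuous, Real.circleAverage_def, smul_eq_mul]
  have hper : Function.Periodic (fun θ : ℝ => φ (circleMap 0 1 θ)) (2 * π) := by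
    intro θ
    simp only [periodic_circleMap 0 1 θ]
  have h5 := hper.intervalIntegral_add_eq (-π) 0
  have h6 : -π + 2 * π = π := by ring
  rw [h6, zero_add] at h5
  simp_rw [ev_eq]
  rw [h5]
  have : (π : ℝ) ≠ 0 := Real.pi_ne_zero
  field_simp

end Polar

theorem isEquilibriumMeasure_arc : IsEquilibriumMeasure (Metric.closedBall (0:ℂ) 1) arc where
  prob := inferInstance
  laplacian := by
    intro φ hφ hs
    simp_rw [extremal_closedBall, EReal.toReal_coe]
    have h2 : (2 : WithTop ℕ∞) ≤ ((⊤ : ℕ∞) : WithTop ℕ∞) := by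
      change ((2 : ℕ∞) : WithTop ℕ∞) ≤ _
      exact WithTop.coe_le_coe.2 le_top
    exact integral_posLog_laplacian (hφ.of_le h2) hs

end Pool.Agent.Lib.P58ffb3
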