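import Mathlib
import Pool.Agent.Lib.P58ffb3.Limit

open MeasureTheory Filter Topology Complex Polynomial
open scoped Real ComplexConjugate

namespace Pool.Agent.Lib.P58ffb3

/-- the inner product of `L²(ν)` on polynomials of degree `< n` -/
@[instance_reducible]
noncomputable def polyCore (n : ℕ) : InnerProductSpace.Core ℂ (Polynomial.degreeLT ℂ n) where
  inner p q := ∫ z, conj ((p : ℂ[X]).eval z) * (q : ℂ[X]).eval z ∂nu
  conj_inner_symm p q := by
    rw [← integral_conj]
    congr 1; funext z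
    rw [map_mul, Complex.conj_conj, mul_comm]
  re_inner_nonneg p := by
    have h : ∀ z : ℂ, conj ((p : ℂ[X]).eval z) * (p : ℂ[X]).eval z =
        ((‖(p : ℂ[X]).eval z‖ ^ 2 : ℝ) : ℂ) := fun z => by
      rw [mul_comm, Complex.mul_conj, Complex.normSq_eq_norm_sq]
    simp_rw [h]
    rw [integral_complex_ofReal]
    simp only [RCLike.re_eq_complex_re, Complex.ofReal_re]
    exact integral_nonneg (fun z => by positivity)
  add_left p q r := by
    rw [← integral_add (integrable_of_continuous (by fun_prop))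
      (integrable_of_continuous (by fun_prop))]
    congr 1; funext z
    simp only [Submodule.coe_add, eval_add, map_add]; ring
  smul_left p q c := by
    rw [← integral_const_mul]
    congr 1; funext z
    simp only [Submodule.coe_smul, eval_smul, smul_eq_mul, map_mul]; ring
  definite p hp := by
    by_contra hne
    have hp0 : (p : ℂ[X]) ≠ 0 := fun h => hne (Subtype.ext h)
    have h : ∀ z : ℂ, conj ((p : ℂ[X]).eval z) * (p : ℂ[X]).eval z =
        ((‖(p : ℂ[X]).eval z‖ ^ 2 : ℝ) : ℂ) := fun z => by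
      rw [mul_comm, Complex.mul_conj, Complex.normSq_eq_norm_sq]
    simp_rw [h] at hp
    rw [integral_complex_ofReal] at hp
    have h2 := pos_of_ne_zero hp0
    have h3 : ∫ z, ‖(p : ℂ[X]).eval z‖ ^ 2 ∂nu = 0 := by exact_mod_cast hp
    linarith

theorem exists_orthonormalBasis (k : ℕ) : ∃ e, IsOrthonormalBasisOf nu k e := by
  let : NormedAddCommGroup (Polynomial.degreeLT ℂ (k + 1)) :=
    @InnerProductSpace.Core.toNormedAddCommGroup ℂ _ _ _ _ (polyCore (k + 1))
  let : InnerProductSpace ℂ (Polynomial.degreeLT ℂ (k + 1)) :=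
    InnerProductSpace.ofCore (polyCore (k + 1)).toCore
  have : FiniteDimensional ℂ (Polynomial.degreeLT ℂ (k + 1)) :=
    Module.Finite.equiv (Polynomial.degreeLTEquiv ℂ (k + 1)).symm
  have hfr : Module.finrank ℂ (Polynomial.degreeLT ℂ (k + 1)) = k + 1 := by
    rw [(Polynomial.degreeLTEquiv ℂ (k + 1)).finrank_eq]; simp
  let b := stdOrthonormalBasis ℂ (Polynomial.degreeLT ℂ (k + 1))
  refine ⟨fun i => ((b (Fin.cast hfr.symm i) : Polynomial.degreeLT ℂ (k + 1)) : ℂ[X]), ?_, ?_⟩
  · intro i
    have h := (b (Fin.cast hfr.symm i)).2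
    rw [Polynomial.mem_degreeLT] at h
    beta_reduce
    by_cases h0 : ((b (Fin.cast hfr.symm i) : Polynomial.degreeLT ℂ (k + 1)) : ℂ[X]) = 0
    · rw [h0]; simp
    · rw [Polynomial.degree_eq_natDegree h0] at h
      have : ((b (Fin.cast hfr.symm i) : Polynomial.degreeLT ℂ (k + 1)) : ℂ[X]).natDegree < k + 1 := by
        exact_mod_cast h
      omega
  · intro i j
    have h := orthonormal_iff_ite.1 b.orthonormal (Fin.cast hfr.symm j) (Fin.cast hfr.symm i)
    have h2 : inner ℂ (b (Fin.cast hfr.symm j)) (b (Fin.cast hfr.symm i)) =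
        ∫ z, conj (((b (Fin.cast hfr.symm j) : Polynomial.degreeLT ℂ (k + 1)) : ℂ[X]).eval z) *
        ((b (Fin.cast hfr.symm i) : Polynomial.degreeLT ℂ (k + 1)) : ℂ[X]).eval z ∂nu := rfl
    rw [h2] at h
    have h3 : ∀ z : ℂ, ((b (Fin.cast hfr.symm i) : Polynomial.degreeLT ℂ (k + 1)) : ℂ[X]).eval z *
        conj (((b (Fin.cast hfr.symm j) : Polynomial.degreeLT ℂ (k + 1)) : ℂ[X]).eval z) =
        conj (((b (Fin.cast hfr.symm j) : Polynomial.degreeLT ℂ (k + 1)) : ℂ[X]).eval z) *
        ((b (Fin.cast hfr.symm i) : Polynomial.degreeLT ℂ (k + 1)) : ℂ[X]).eval z :=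
      fun z => mul_comm _ _
    simp_rw [h3]
    rw [h]
    by_cases hij : i = j
    · subst hij; simp
    · rw [if_neg hij, if_neg]
      intro h4
      apply hij
      have := congrArg Fin.val h4
      simp only [Fin.val_cast] at this
      exact Fin.ext this.symm

end Pool.Agent.Lib.P58ffb3
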